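import Pool.Agent.Lib.MP_8a3537_gt.D1R.V

/-!
# Isometries of hyperbolic quadratic forms over a group ring: definitions

`R` is a ring with involution, `G` a group, `A = R[G]` with the involution
`∑ r_g g ↦ ∑ r_g^* g⁻¹` and `ε = 1` or `ε = -1`. For a finite set `κ` the hyperbolic
`ε`-quadratic form on `A^κ ⊕ A^κ` is given by the matrix `hyp = (0 1; 0 0)`.
-/

namespace Pool.Agent.Lib.MP8a3537.D1R

open Matrix MonoidAlgebra

variable {R G : Type*} [Ring R] [StarRing R] [Group G]

/-- The involution `∑ r_g g ↦ ∑ r_g^* g⁻¹` of `R[G]`. -/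
noncomputable def conj (x : MonoidAlgebra R G) : MonoidAlgebra R G :=
  x.coeff.sum fun g r => MonoidAlgebra.single g⁻¹ (star r)

/-- The conjugate transpose of a matrix over `R[G]`. -/
noncomputable def dual {m n : Type*} (x : Matrix m n (MonoidAlgebra R G)) :
    Matrix n m (MonoidAlgebra R G) :=
  (x.map conj)ᵀ

lemma conj_zero : conj (0 : MonoidAlgebra R G) = 0 := by simp [conj]

lemma conj_add (x y : MonoidAlgebra R G) : conj (x + y) = conj x + conj y := by
  unfold conj
  rw [MonoidAlgebra.coeff_add, Finsupp.sum_add_index']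
  · intro g; simp
  · intro g r s; simp

lemma conj_single (g : G) (r : R) :
    conj (MonoidAlgebra.single g r) = MonoidAlgebra.single g⁻¹ (star r) := by
  unfold conj
  rw [MonoidAlgebra.coeff_single, Finsupp.sum_single_index]
  simp

lemma conj_one : conj (1 : MonoidAlgebra R G) = 1 := by
  rw [MonoidAlgebra.one_def, conj_single, inv_one, star_one]

lemma conj_mul (x y : MonoidAlgebra R G) : conj (x * y) = conj y * conj x := by
  induction x using MonoidAlgebra.induction_linear with
  | zero => simp [conj_zero]
  | add x x' hx hx' => rw [add_mul, conj_add, conj_add, hx, hx', mul_add]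
  | single g r =>
    induction y using MonoidAlgebra.induction_linear with
    | zero => simp [conj_zero]
    | add y y' hy hy' => rw [mul_add, conj_add, conj_add, hy, hy', add_mul]
    | single h s =>
      rw [MonoidAlgebra.single_mul_single, conj_single, conj_single, conj_single,
        MonoidAlgebra.single_mul_single, _root_.mul_inv_rev, star_mul]

lemma conj_conj (x : MonoidAlgebra R G) : conj (conj x) = x := by
  induction x using MonoidAlgebra.induction_linear with
  | zero => simp [conj_zero]
  | add x x' hx hx' => rw [conj_add, conj_add, hx, hx']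
  | single g r => rw [conj_single, conj_single, inv_inv, star_star]

/-- the involution as an additive map -/
noncomputable def conjHom : MonoidAlgebra R G →+ MonoidAlgebra R G where
  toFun := conj
  map_zero' := conj_zero
  map_add' := conj_add

lemma conj_sum {ι : Type*} (s : Finset ι) (f : ι → MonoidAlgebra R G) :
    conj (∑ i ∈ s, f i) = ∑ i ∈ s, conj (f i) := map_sum (conjHom (R := R) (G := G)) f s

lemma dual_add {m n : Type*} (x y : Matrix m n (MonoidAlgebra R G)) :
    dual (x + y) = dual x + dual y := by
  ext1 i j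
  simp [dual, conj_add]

lemma dual_zero {m n : Type*} : dual (0 : Matrix m n (MonoidAlgebra R G)) = 0 := by
  ext1 i j
  simp [dual, conj_zero]

/-- the conjugate transpose as an additive map -/
noncomputable def dualHom {m n : Type*} :
    Matrix m n (MonoidAlgebra R G) →+ Matrix n m (MonoidAlgebra R G) where
  toFun := dual
  map_zero' := dual_zero
  map_add' := dual_add

lemma dual_neg {m n : Type*} (x : Matrix m n (MonoidAlgebra R G)) : dual (-x) = -dual x :=
  map_neg dualHom x

lemma dual_sub {m n : Type*} (x y : Matrix m n (MonoidAlgebra R G)) :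
    dual (x - y) = dual x - dual y := map_sub dualHom x y

lemma dual_zsmul {m n : Type*} (c : ℤ) (x : Matrix m n (MonoidAlgebra R G)) :
    dual (c • x) = c • dual x := map_zsmul dualHom c x

lemma dual_dual {m n : Type*} (x : Matrix m n (MonoidAlgebra R G)) : dual (dual x) = x := by
  ext1 i j
  simp [dual, conj_conj]

lemma dual_mul {m n l : Type*} [Fintype n] (x : Matrix m n (MonoidAlgebra R G))
    (y : Matrix n l (MonoidAlgebra R G)) : dual (x * y) = dual y * dual x := by
  ext1 i j
  simp only [dual, Matrix.transpose_apply, Matrix.map_apply, Matrix.mul_apply, conj_sum, conj_mul]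

lemma dual_one {m : Type*} [DecidableEq m] : dual (1 : Matrix m m (MonoidAlgebra R G)) = 1 := by
  ext1 i j
  simp only [dual, Matrix.transpose_apply, Matrix.map_apply]
  by_cases h : i = j
  · subst h; rw [Matrix.one_apply_eq, conj_one]
  · rw [Matrix.one_apply_ne h, Matrix.one_apply_ne (Ne.symm h), conj_zero]

lemma dual_fromBlocks {m n o p : Type*} (a : Matrix m n (MonoidAlgebra R G))
    (b : Matrix m p (MonoidAlgebra R G)) (c : Matrix o n (MonoidAlgebra R G))
    (d : Matrix o p (MonoidAlgebra R G)) :
    dual (Matrix.fromBlocks a b c d) = Matrix.fromBlocks (dual a) (dual c) (dual b) (dual d) := by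
  unfold dual
  rw [Matrix.fromBlocks_map, Matrix.fromBlocks_transpose]

variable (R G)

/-- The matrix `(0 1; 0 0)` of the hyperbolic quadratic form. -/
noncomputable def hyp (κ : Type*) [DecidableEq κ] : Matrix (κ ⊕ κ) (κ ⊕ κ) (MonoidAlgebra R G) :=
  Matrix.fromBlocks 0 1 0 0

/-- The group of isometries of the hyperbolic `ε`-quadratic form on `A^κ ⊕ A^κ`: the invertible
matrices `u` with `u^* hyp u = hyp + η - ε η^*` for some matrix `η`. -/
noncomputable def Isom (ε : ℤˣ) (κ : Type*) [Fintype κ] [DecidableEq κ] :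
    Subgroup (Matrix (κ ⊕ κ) (κ ⊕ κ) (MonoidAlgebra R G))ˣ where
  carrier := {u | ∃ η, dual u.val * hyp R G κ * u.val = hyp R G κ + η - (ε : ℤ) • dual η}
  one_mem' := ⟨0, by rw [dual_zero, Units.val_one, dual_one]; simp⟩
  mul_mem' := by
    rintro u v ⟨η, hη⟩ ⟨θ, hθ⟩
    refine ⟨θ + dual v.val * η * v.val, ?_⟩
    have h : dual (u * v).val * hyp R G κ * (u * v).val
        = dual v.val * (dual u.val * hyp R G κ * u.val) * v.val := by
      rw [Units.val_mul, dual_mul]; simp only [Matrix.mul_assoc]
    rw [h, hη, Matrix.mul_sub, Matrix.mul_add, Matrix.sub_mul, Matrix.add_mul, hθ, dual_add,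
      dual_mul, dual_mul, dual_dual, ← Matrix.mul_assoc, smul_add, Matrix.mul_smul,
      Matrix.smul_mul]
    abel
  inv_mem' := by
    rintro u ⟨η, hη⟩
    refine ⟨-(dual u⁻¹.val * η * u⁻¹.val), ?_⟩
    have h1 : hyp R G κ = dual u⁻¹.val * (dual u.val * hyp R G κ * u.val) * u⁻¹.val := by
      have e1 : dual u⁻¹.val * dual u.val = 1 := by
        rw [← dual_mul, Units.mul_inv, dual_one]
      have e2 : u.val * u⁻¹.val = 1 := Units.mul_inv u
      calc hyp R G κ = (dual u⁻¹.val * dual u.val) * hyp R G κ * (u.val * u⁻¹.val) := by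
            rw [e1, e2, Matrix.one_mul, Matrix.mul_one]
        _ = _ := by simp only [Matrix.mul_assoc]
    have h2 : hyp R G κ = dual u⁻¹.val * hyp R G κ * u⁻¹.val
        + (dual u⁻¹.val * η * u⁻¹.val - (ε : ℤ) • dual (dual u⁻¹.val * η * u⁻¹.val)) := by
      conv_lhs => rw [h1, hη]
      rw [Matrix.mul_sub, Matrix.mul_add, Matrix.sub_mul, Matrix.add_mul, dual_mul, dual_mul,
        dual_dual, Matrix.mul_smul, Matrix.smul_mul, ← Matrix.mul_assoc, add_sub_assoc]
    rw [dual_neg, smul_neg]
    have h3 : ∀ a b c d : Matrix (κ ⊕ κ) (κ ⊕ κ) (MonoidAlgebra R G),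
        a = b + (c - d) → b = a + -c - -d := by
      intro a b c d h; rw [h]; abel
    exact h3 _ _ _ _ h2

end Pool.Agent.Lib.MP8a3537.D1R
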