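import Pool.Agent.Lib.MP_8a3537_gt.D1R.Inv

/-!
# Values of the invariant
-/

namespace Pool.Agent.Lib.MP8a3537.D1R

open Matrix MonoidAlgebra
open Pool.Agent.Lib.MP8a3537.D1 (Half odd odd_inv mul_zmod Sys)

set_option linter.unusedSectionVars false

variable {S G : Type*} [Ring S] [StarRing S] [Group G]
variable {κ : Type*} [Fintype κ] [DecidableEq κ]

/-- the matrix `c ⊗ g` -/
noncomputable def cm {α β : Type*} (g : G) (c : Matrix α β S) : Matrix α β (MonoidAlgebra S G) :=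
  c.map (MonoidAlgebra.single g)

section cm

variable {α β γ : Type*}

lemma cm_add (g : G) (c d : Matrix α β S) : cm g (c + d) = cm g c + cm g d := by
  ext1 i j
  exact MonoidAlgebra.single_add _ _ _

lemma cm_zero (g : G) : cm g (0 : Matrix α β S) = 0 := by
  ext1 i j
  exact MonoidAlgebra.single_zero _

lemma cm_one [DecidableEq α] : cm (1 : G) (1 : Matrix α α S) = 1 := by
  ext1 i j
  rw [cm, Matrix.map_apply]
  by_cases h : i = j
  · subst h; rw [Matrix.one_apply_eq, Matrix.one_apply_eq]; rfl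
  · rw [Matrix.one_apply_ne h, Matrix.one_apply_ne h, MonoidAlgebra.single_zero]

lemma cm_mul [Fintype β] (g h : G) (c : Matrix α β S) (d : Matrix β γ S) :
    cm g c * cm h d = cm (g * h) (c * d) := by
  ext1 i j
  have hs : ∀ s : Finset β, ∑ x ∈ s, MonoidAlgebra.single (g * h) (c i x * d x j)
      = MonoidAlgebra.single (g * h) (∑ x ∈ s, c i x * d x j) := by
    classical
    intro s
    induction s using Finset.induction_on with
    | empty => simp
    | insert a s ha ih => rw [Finset.sum_insert ha, Finset.sum_insert ha, ih, MonoidAlgebra.single_add]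
  simp only [cm, Matrix.mul_apply, Matrix.map_apply, MonoidAlgebra.single_mul_single]
  exact hs _

lemma dual_cm (g : G) (c : Matrix α β S) : dual (cm g c) = cm g⁻¹ cᴴ := by
  ext1 i j
  exact conj_single _ _

open Classical in
lemma Rm_cm (P : Set G) (g : G) (c : Matrix α β S) :
    Rm P (cm g c) = if g ∈ P then cm g c else 0 := by
  ext1 i j
  have h := restr_single P g (c i j)
  by_cases hg : g ∈ P
  · rw [if_pos hg] at h ⊢; exact h
  · rw [if_neg hg] at h ⊢; exact h

open Classical in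
lemma t1_cm [Fintype α] (g : G) (c : Matrix α α S) :
    t1 (cm g c).trace = if g = 1 then cls c.trace else 0 := by
  simp only [Matrix.trace, Matrix.diag_apply, map_sum, cm, Matrix.map_apply, t1_single]
  by_cases h : g = 1
  · simp [h]
  · simp [h]

lemma cm_fromBlocks {ε : Type*} (g : G) (a : Matrix α β S) (b : Matrix α γ S) (c : Matrix ε β S)
    (d : Matrix ε γ S) : cm g (Matrix.fromBlocks a b c d)
      = Matrix.fromBlocks (cm g a) (cm g b) (cm g c) (cm g d) := by
  unfold cm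
  rw [Matrix.fromBlocks_map]

end cm

section Char2

variable [Two S] {δ : G →* Multiplicative (ZMod 2)} {P : Set G}

lemma kappa_def (hG : ∀ g : G, g * g = 1 → g = 1) (hP : Half δ P)
    (N : Matrix (κ ⊕ κ) (κ ⊕ κ) (MonoidAlgebra S G)) :
    (sys κ hG hP).kappa N = Qm P N + t1 (Em S G κ * dgm N * Dm δ N).trace := rfl

lemma kappa_zero (hG : ∀ g : G, g * g = 1 → g = 1) (hP : Half δ P) :
    (sys κ hG hP).kappa (0 : Matrix (κ ⊕ κ) (κ ⊕ κ) (MonoidAlgebra S G)) = 0 := by
  rw [kappa_def]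
  simp [Qm]

lemma hyp_formula (a b c d : Matrix κ κ (MonoidAlgebra S G)) :
    dual (Matrix.fromBlocks a b c d) * hyp S G κ * Matrix.fromBlocks a b c d
      = Matrix.fromBlocks (dual a * c) (dual a * d) (dual b * c) (dual b * d) := by
  unfold hyp
  rw [dual_fromBlocks, Matrix.fromBlocks_multiply, Matrix.fromBlocks_multiply]
  simp

lemma inv1_upper (hG : ∀ g : G, g * g = 1 → g = 1) (hP : Half δ P)
    (Z : Matrix κ κ (MonoidAlgebra S G)) :
    inv1 hG hP (Matrix.fromBlocks 1 (Z + dual Z) 0 1) = 0 := by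
  have h : dual (Matrix.fromBlocks 1 (Z + dual Z) 0 1) * hyp S G κ
      * Matrix.fromBlocks 1 (Z + dual Z) 0 1 = hyp S G κ + Matrix.fromBlocks 0 0 0 Z
        + dual (Matrix.fromBlocks 0 0 0 Z) := by
    rw [hyp_formula, dual_fromBlocks, dual_zero, dual_one, hyp, Matrix.fromBlocks_add,
      Matrix.fromBlocks_add, dual_add, dual_dual]
    simp [add_comm]
  rw [inv1_eq hG hP h, Jm_fromBlocks, kappa_def, dgm_fromBlocks, Em_fromBlocks, Qm, Rm_fromBlocks,
    Matrix.fromBlocks_multiply]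
  simp [dual_zero, Dm_fromBlocks]

lemma inv1_lower (hG : ∀ g : G, g * g = 1 → g = 1) (hP : Half δ P)
    (Z : Matrix κ κ (MonoidAlgebra S G)) :
    inv1 hG hP (Matrix.fromBlocks 1 0 (Z + dual Z) 1) = 0 := by
  have h : dual (Matrix.fromBlocks 1 0 (Z + dual Z) 1) * hyp S G κ
      * Matrix.fromBlocks 1 0 (Z + dual Z) 1 = hyp S G κ + Matrix.fromBlocks Z 0 0 0
        + dual (Matrix.fromBlocks Z 0 0 0) := by
    rw [hyp_formula, dual_fromBlocks, dual_zero, dual_one, hyp, Matrix.fromBlocks_add,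
      Matrix.fromBlocks_add]
    simp
  rw [inv1_eq hG hP h, Jm_fromBlocks, kappa_def, dgm_fromBlocks, Em_fromBlocks, Qm, Rm_fromBlocks,
    Matrix.fromBlocks_multiply, trace_blocks, Dm_fromBlocks, Matrix.fromBlocks_multiply, trace_blocks]
  simp [dual_zero]

lemma inv1_diag (hG : ∀ g : G, g * g = 1 → g = 1) (hP : Half δ P)
    (a : (Matrix κ κ (MonoidAlgebra S G))ˣ) :
    inv1 hG hP (Matrix.fromBlocks a.val 0 0 (dual a⁻¹.val)) = 0 := by
  have h : dual (Matrix.fromBlocks a.val 0 0 (dual a⁻¹.val)) * hyp S G κ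
      * Matrix.fromBlocks a.val 0 0 (dual a⁻¹.val) = hyp S G κ + 0 + dual 0 := by
    rw [hyp_formula, dual_zero, hyp, ← dual_mul, Units.inv_mul, dual_one]
    simp [dual_zero]
  rw [inv1_eq hG hP h, Matrix.mul_zero, kappa_zero]

/-- the part of a matrix with coefficients at the identity -/
noncomputable def pr (x : Matrix (κ ⊕ κ) (κ ⊕ κ) (MonoidAlgebra S G)) : Matrix (κ ⊕ κ) (κ ⊕ κ) S :=
  x.map c1

lemma pr_add (x y : Matrix (κ ⊕ κ) (κ ⊕ κ) (MonoidAlgebra S G)) : pr (x + y) = pr x + pr y := by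
  ext1 i j
  exact map_add (c1 (S := S) (G := G)) _ _

lemma pr_dual (x : Matrix (κ ⊕ κ) (κ ⊕ κ) (MonoidAlgebra S G)) : pr (dual x) = (pr x)ᴴ := by
  ext1 i j
  exact c1_conj _

lemma pr_cm (c : Matrix (κ ⊕ κ) (κ ⊕ κ) S) : pr (cm (1 : G) c) = c := by
  ext1 i j
  show c1 (MonoidAlgebra.single (1 : G) (c i j)) = c i j
  rw [c1_single, if_pos rfl]

lemma hyp_cm : hyp S G κ = cm (1 : G) (Matrix.fromBlocks 0 1 0 0) := by
  rw [cm_fromBlocks, cm_zero, cm_one]; rfl

lemma Jm_cm : Jm S G κ = cm (1 : G) (Matrix.fromBlocks 0 1 1 0) := by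
  rw [cm_fromBlocks, cm_zero, cm_one]; rfl

lemma inv1_const (hG : ∀ g : G, g * g = 1 → g = 1) (hP : Half δ P)
    (c : Matrix (κ ⊕ κ) (κ ⊕ κ) S)
    (hc : ∃ η, dual (cm (1 : G) c) * hyp S G κ * cm 1 c = hyp S G κ + η + dual η) :
    inv1 hG hP (cm (1 : G) c) = 0 := by
  classical
  obtain ⟨η, hη⟩ := hc
  have h1 : dual (cm (1 : G) c) * hyp S G κ * cm 1 c
      = cm (1 : G) (cᴴ * Matrix.fromBlocks 0 1 0 0 * c) := by
    rw [dual_cm, hyp_cm, cm_mul, cm_mul, inv_one, one_mul, one_mul]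
  have h2 := congrArg pr hη
  rw [h1, pr_cm, pr_add, pr_add, pr_dual, hyp_cm, pr_cm] at h2
  have h3 : dual (cm (1 : G) c) * hyp S G κ * cm 1 c
      = hyp S G κ + cm 1 (pr η) + dual (cm 1 (pr η)) := by
    rw [h1, h2, cm_add, cm_add, dual_cm, hyp_cm, inv_one]
  have h1P : (1 : G) ∉ P := fun h => hP.odd 1 h (map_one δ)
  rw [inv1_eq hG hP h3, kappa_def, Jm_cm, cm_mul, one_mul, Qm, Rm_cm, if_neg h1P, Matrix.zero_mul]
  rw [Dm_eq, Rm_cm, if_neg (one_notMem_odd δ), Matrix.mul_zero]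
  simp

end Char2

end Pool.Agent.Lib.MP8a3537.D1R
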