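import Pool.Agent.Lib.MP_8a3537_gt.D1R.Gen

/-!
# The value at `g ⊗ ψ`
-/

namespace Pool.Agent.Lib.MP8a3537.D1R

open Matrix MonoidAlgebra
open Pool.Agent.Lib.MP8a3537.D1 (Half odd odd_inv mul_zmod Sys)

set_option linter.unusedSectionVars false

variable {S G : Type*} [Ring S] [StarRing S] [Group G]
variable {κ : Type*} [Fintype κ] [DecidableEq κ]

/-- the adjoint over `S` -/
def dgc (x : Matrix (κ ⊕ κ) (κ ⊕ κ) S) : Matrix (κ ⊕ κ) (κ ⊕ κ) S :=
  Matrix.fromBlocks 0 1 1 0 * xᴴ * Matrix.fromBlocks 0 1 1 0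

lemma dgm_cm [Two S] (g : G) (x : Matrix (κ ⊕ κ) (κ ⊕ κ) S) : dgm (cm g x) = cm g⁻¹ (dgc x) := by
  rw [dgm, dual_cm, Jm_cm, cm_mul, cm_mul, one_mul, mul_one]; rfl

lemma dgm_add (x y : Matrix (κ ⊕ κ) (κ ⊕ κ) (MonoidAlgebra S G)) :
    dgm (x + y) = dgm x + dgm y := by
  simp [dgm, dual_add, Matrix.mul_add, Matrix.add_mul]

lemma dgc_mul (x y : Matrix (κ ⊕ κ) (κ ⊕ κ) S) : dgc (x * y) = dgc y * dgc x := by
  have hJ : (Matrix.fromBlocks 0 1 1 0 : Matrix (κ ⊕ κ) (κ ⊕ κ) S) * Matrix.fromBlocks 0 1 1 0 = 1 := by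
    rw [Matrix.fromBlocks_multiply]; simp [Matrix.fromBlocks_one]
  unfold dgc
  generalize (Matrix.fromBlocks 0 1 1 0 : Matrix (κ ⊕ κ) (κ ⊕ κ) S) = J at *
  rw [Matrix.conjTranspose_mul]
  calc J * (yᴴ * xᴴ) * J = J * yᴴ * 1 * xᴴ * J := by
        rw [Matrix.mul_one]; simp only [Matrix.mul_assoc]
    _ = _ := by rw [← hJ]; simp only [Matrix.mul_assoc]

lemma dgc_add (x y : Matrix (κ ⊕ κ) (κ ⊕ κ) S) : dgc (x + y) = dgc x + dgc y := by
  simp [dgc, Matrix.mul_add, Matrix.add_mul]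

lemma dgc_one : dgc (1 : Matrix (κ ⊕ κ) (κ ⊕ κ) S) = 1 := by
  unfold dgc
  rw [Matrix.conjTranspose_one, Matrix.mul_one, Matrix.fromBlocks_multiply]
  simp [Matrix.fromBlocks_one]

lemma dgc_fromBlocks (a b c d : Matrix κ κ S) :
    dgc (Matrix.fromBlocks a b c d) = Matrix.fromBlocks dᴴ bᴴ cᴴ aᴴ := by
  unfold dgc
  rw [Matrix.fromBlocks_conjTranspose, Matrix.fromBlocks_multiply, Matrix.fromBlocks_multiply]
  simp

section Char2

variable [Two S] {δ : G →* Multiplicative (ZMod 2)} {P : Set G}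

lemma tc {α β : Type*} [Fintype α] [Fintype β] (x : Matrix α β S) (y : Matrix β α S) :
    cls (x * y).trace = cls (y * x).trace := by
  simp only [Matrix.trace, Matrix.diag_apply, Matrix.mul_apply, map_sum]
  rw [Finset.sum_comm]
  exact Finset.sum_congr rfl (fun i _ => Finset.sum_congr rfl (fun j _ => cls_comm _ _))

lemma twoK {α β : Type*} (x : Matrix α β S) : x + x = 0 := by
  ext1 i j
  exact Two.two _

lemma inv1_eq' (hG : ∀ g : G, g * g = 1 → g = 1) (hP : Half δ P)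
    {u N : Matrix (κ ⊕ κ) (κ ⊕ κ) (MonoidAlgebra S G)}
    (h : dgm u * Em S G κ * u = Em S G κ + N + dgm N) :
    (∃ η, dual u * hyp S G κ * u = hyp S G κ + η + dual η) ∧
      inv1 hG hP u = (sys κ hG hP).kappa N := by
  have h1 : dgm u * Em S G κ * u = Jm S G κ * (dual u * hyp S G κ * u) := by
    rw [dgm, Matrix.mul_assoc (Jm S G κ * dual u), Jm_mul_Em]
    simp only [Matrix.mul_assoc]
  have h2 : dual u * hyp S G κ * u = hyp S G κ + Jm S G κ * N + dual (Jm S G κ * N) := by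
    have h3 := congrArg (fun x => Jm S G κ * x) (h1.symm.trans h)
    simp only [← Matrix.mul_assoc, Jm_mul_Jm, Matrix.one_mul] at h3
    have h4 : dual (Jm S G κ * N) = Jm S G κ * dgm N := by
      rw [dual_mul, dual_Jm, dgm, ← Matrix.mul_assoc, ← Matrix.mul_assoc, Jm_mul_Jm, Matrix.one_mul]
    rw [h3, Matrix.mul_add, Matrix.mul_add, Jm_mul_Em, h4]
  refine ⟨⟨_, h2⟩, ?_⟩
  rw [inv1_eq hG hP h2, ← Matrix.mul_assoc, Jm_mul_Jm, Matrix.one_mul]

/-- The value on `1 + (g + 1) π` for a self adjoint idempotent `π` over `S`. -/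
theorem inv1_idem (hG : ∀ g : G, g * g = 1 → g = 1) (hP : Half δ P) (g : G)
    (a b c d : Matrix κ κ S) (π : Matrix (κ ⊕ κ) (κ ⊕ κ) S) (hπ : π = Matrix.fromBlocks a b c d)
    (h1 : π * π = π) (h2 : dgc π = π) :
    (∃ η, dual (cm 1 (1 + π) + cm g π) * hyp S G κ * (cm 1 (1 + π) + cm g π)
        = hyp S G κ + η + dual η) ∧
      inv1 hG hP (cm 1 (1 + π) + cm g π)
        = if δ g = 1 then 0 else cls (d * d * d + d).trace := by
  classical
  obtain ⟨e, he⟩ : ∃ e : Matrix (κ ⊕ κ) (κ ⊕ κ) S, e = Matrix.fromBlocks 0 0 0 1 := ⟨_, rfl⟩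
  have hee : e * e = e := by
    rw [he, Matrix.fromBlocks_multiply]; simp
  have hde : dgc e = 1 + e := by
    rw [he, dgc_fromBlocks, ← Matrix.fromBlocks_one, Matrix.fromBlocks_add]
    simp [twoK]
  have hEm : Em S G κ = cm (1 : G) e := by
    rw [he, cm_fromBlocks, cm_zero, cm_one]; rfl
  have hpp : (1 + π) * π = 0 := by rw [Matrix.add_mul, Matrix.one_mul, h1, twoK]
  obtain ⟨n, hn⟩ : ∃ n, n = π * e * (1 + π) := ⟨_, rfl⟩
  have hdn : dgc n = (1 + π) * e * π := by
    rw [hn, dgc_mul, dgc_mul, dgc_add, dgc_one, h2, hde, Matrix.add_mul 1 e, Matrix.one_mul,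
      Matrix.mul_add, hpp, zero_add, Matrix.mul_assoc]
  have hnn : n * n = 0 := by
    have : n * n = π * e * ((1 + π) * π) * e * (1 + π) := by
      rw [hn]; simp only [Matrix.mul_assoc]
    rw [this, hpp]; simp
  have hrel : dgm (cm 1 (1 + π) + cm g π) * Em S G κ * (cm 1 (1 + π) + cm g π)
      = Em S G κ + (cm 1 n + cm g⁻¹ n) + dgm (cm 1 n + cm g⁻¹ n) := by
    rw [dgm_add, dgm_add, dgm_cm, dgm_cm, dgm_cm, dgm_cm, hEm, dgc_add, dgc_one, h2, hdn, inv_one,
      inv_inv, Matrix.add_mul, Matrix.mul_add, Matrix.add_mul, Matrix.add_mul, cm_mul, cm_mul,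
      cm_mul, cm_mul, cm_mul, cm_mul, one_mul, one_mul, mul_one, mul_one, inv_mul_cancel, one_mul]
    have e1 : (1 + π) * e * (1 + π) = e + n + (1 + π) * e * π + π * e * π := by
      rw [hn]
      have h3 := twoK (π * e * π)
      calc (1 + π) * e * (1 + π) = e + π * e + e * π + π * e * π := by noncomm_ring
        _ = e + π * e + e * π + π * e * π + (π * e * π + π * e * π) := by rw [h3, add_zero]
        _ = _ := by noncomm_ring
    rw [e1, cm_add, cm_add, cm_add, ← hn]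
    have h4 := twoM (cm (1 : G) (π * e * π))
    calc cm (1 : G) e + cm 1 n + cm 1 ((1 + π) * e * π) + cm 1 (π * e * π) + cm g⁻¹ n
          + (cm g ((1 + π) * e * π) + cm 1 (π * e * π))
        = cm (1 : G) e + (cm 1 n + cm g⁻¹ n) + (cm 1 ((1 + π) * e * π) + cm g ((1 + π) * e * π))
          + (cm 1 (π * e * π) + cm 1 (π * e * π)) := by abel
      _ = _ := by rw [h4, add_zero]
  obtain ⟨hex, hval⟩ := inv1_eq' hG hP hrel
  refine ⟨hex, ?_⟩
  have h1P : (1 : G) ∉ P := fun h => hP.odd 1 h (map_one δ)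
  rw [hval, kappa_def]
  have hQ : Qm P (cm 1 n + cm g⁻¹ n) = 0 := by
    rw [Qm, map_add, Rm_cm, Rm_cm, if_neg h1P, zero_add]
    by_cases hg : g⁻¹ ∈ P
    · rw [if_pos hg, Matrix.mul_add, cm_mul, cm_mul, hnn, cm_zero, cm_zero]
      simp
    · rw [if_neg hg]; simp
  rw [hQ, zero_add, Dm_eq, map_add, Rm_cm, Rm_cm, if_neg (one_notMem_odd δ), zero_add]
  by_cases hg : δ g = 1
  · have : g⁻¹ ∉ odd δ := by simp [odd, hg]
    rw [if_neg this, if_pos hg]; simp
  · have hg' : g⁻¹ ∈ odd δ := by simp [odd, hg]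
    have hne : g⁻¹ ≠ 1 := by
      intro h'; rw [h'] at hg'; exact one_notMem_odd δ hg'
    rw [if_pos hg', if_neg hg, dgm_add, dgm_cm, dgm_cm, inv_one, inv_inv, hEm, Matrix.mul_add,
      Matrix.add_mul, cm_mul, cm_mul, cm_mul, cm_mul, one_mul, one_mul, one_mul, mul_inv_cancel,
      Matrix.trace_add, map_add, t1_cm, t1_cm, if_neg hne, if_pos rfl, zero_add, hdn, hn]
    -- the trace over `S`
    have hy : e * π * e = Matrix.fromBlocks 0 0 0 d := by
      rw [he, hπ, Matrix.fromBlocks_multiply, Matrix.fromBlocks_multiply]; simp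
    have e2 : e * ((1 + π) * e * π) * (π * e * (1 + π))
        = (e * (1 + π)) * (e * (π * π) * e * (1 + π)) := by simp only [Matrix.mul_assoc]
    rw [e2, tc, h1]
    have e3 : e * π * e * (1 + π) * (e * (1 + π))
        = e * π * e * (1 + π) * e * (1 + π) := by simp only [Matrix.mul_assoc]
    have e4 : cls (e * π * e * (1 + π) * e * (1 + π)).trace
        = cls (e * π * e * ((1 + π) * (e * (1 + π) * e))).trace := by
      have : e * π * e * (1 + π) * e * (1 + π) = e * (π * e * (1 + π) * e * (1 + π)) := by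
        simp only [Matrix.mul_assoc]
      rw [this]
      nth_rw 1 [← hee]
      rw [Matrix.mul_assoc e e, tc]
      simp only [Matrix.mul_assoc]
    have e5 : e * π * e * ((1 + π) * (e * (1 + π) * e))
        = (e * π * e) * (e + e * π * e) * (e + e * π * e) := by
      have h3 : e * (1 + π) * e = e + e * π * e := by
        calc e * (1 + π) * e = e * e + e * π * e := by noncomm_ring
          _ = _ := by rw [hee]
      have h4 : e * π * e * ((1 + π) * (e * (1 + π) * e))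
          = e * π * (e * e) * ((1 + π) * ((e * e) * (1 + π) * e)) := by rw [hee]
      rw [h4]
      calc e * π * (e * e) * ((1 + π) * (e * e * (1 + π) * e))
          = (e * π * e) * (e * (1 + π) * e) * (e * (1 + π) * e) := by
            simp only [Matrix.mul_assoc]
        _ = _ := by rw [h3]
    rw [e3, e4, e5, hy, he, Matrix.fromBlocks_add, Matrix.fromBlocks_multiply,
      Matrix.fromBlocks_multiply, trace_blocks]
    simp only [Matrix.mul_zero, Matrix.zero_mul, add_zero, zero_add, Matrix.trace_zero]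
    have e6 : d * (1 + d) * (1 + d) = d * d * d + d + (d * d + d * d) := by noncomm_ring
    rw [e6, twoK, add_zero]

end Char2

end Pool.Agent.Lib.MP8a3537.D1R
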