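import Pool.Agent.Lib.MP_8a3537_gt.D1R.Glue

/-!
# The isometry `g ⊗ ψ` of a hyperbolic form, in characteristic two
-/

namespace Pool.Agent.Lib.MP8a3537.D1R

open Matrix MonoidAlgebra
open Pool.Agent.Lib.MP8a3537.D1 (Half odd odd_inv mul_zmod Sys)

set_option linter.unusedSectionVars false

variable {S G : Type*} [Ring S] [StarRing S] [Group G]
variable {κ : Type*} [Fintype κ] [DecidableEq κ]

variable (S G) in
/-- the matrix `g ⊕ 1` -/
noncomputable def gOne (κ : Type*) [DecidableEq κ] (g : G) :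
    Matrix (κ ⊕ κ) (κ ⊕ κ) (MonoidAlgebra S G) :=
  Matrix.fromBlocks (Matrix.diagonal fun _ => MonoidAlgebra.single g 1) 0 0 1

lemma diag_cm (g : G) :
    (Matrix.diagonal fun _ => MonoidAlgebra.single g 1 : Matrix κ κ (MonoidAlgebra S G))
      = cm g 1 := by
  ext1 i j
  rw [cm, Matrix.map_apply]
  by_cases h : i = j
  · subst h; rw [Matrix.one_apply_eq, Matrix.diagonal_apply_eq]
  · rw [Matrix.one_apply_ne h, Matrix.diagonal_apply_ne _ h, MonoidAlgebra.single_zero]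

section Char2

variable [Two S] {δ : G →* Multiplicative (ZMod 2)} {P : Set G}

/-- The isometry `u` of the hyperbolic form is a copy of the isometry `g ⊕ 1` of `ψ ⊕ ψ`. -/
def IsGlue2 (g : G) (ψ : Matrix κ κ S) (u : Matrix (κ ⊕ κ) (κ ⊕ κ) (MonoidAlgebra S G)) : Prop :=
  ∃ p : (Matrix (κ ⊕ κ) (κ ⊕ κ) (MonoidAlgebra S G))ˣ,
    (∃ η, dual p.val * cm 1 (Matrix.fromBlocks ψ 0 0 ψ) * p.val = hyp S G κ + η + dual η) ∧
    p.val * u = gOne S G κ g * p.val

/-- The canonical isometry. -/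
theorem exists_glue (ψ L : Matrix κ κ S) (hL1 : L * (ψ + ψᴴ) = 1)
    (hL2 : (ψ + ψᴴ) * L = 1) :
    ∃ (p q : Matrix (κ ⊕ κ) (κ ⊕ κ) S) (a b c : Matrix κ κ S),
      p * q = 1 ∧ q * p = 1 ∧
      (∃ η : Matrix (κ ⊕ κ) (κ ⊕ κ) S, pᴴ * Matrix.fromBlocks ψ 0 0 ψ * p
        = Matrix.fromBlocks 0 1 0 0 + η + ηᴴ) ∧
      q * Matrix.fromBlocks 1 0 0 0 * p = Matrix.fromBlocks a b c (ψ * L) ∧
      dgc (q * Matrix.fromBlocks 1 0 0 0 * p) = q * Matrix.fromBlocks 1 0 0 0 * p := by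
  have hLt : Lᴴ = L := by
    have h1 : Lᴴ * (ψ + ψᴴ) = 1 := by
      have := congrArg Matrix.conjTranspose hL2
      rw [Matrix.conjTranspose_mul, Matrix.conjTranspose_add, Matrix.conjTranspose_conjTranspose,
        Matrix.conjTranspose_one, add_comm ψᴴ] at this
      exact this
    calc Lᴴ = Lᴴ * ((ψ + ψᴴ) * L) := by rw [hL2, Matrix.mul_one]
      _ = L := by rw [← Matrix.mul_assoc, h1, Matrix.one_mul]
  obtain ⟨E, hE⟩ : ∃ E, E = L * ψ := ⟨_, rfl⟩
  obtain ⟨E', hE'⟩ : ∃ E', E' = ψ * L := ⟨_, rfl⟩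
  have hEt : Eᴴ = 1 + E' := by
    have h1 : E' + ψᴴ * L = 1 := by rw [hE', ← Matrix.add_mul]; exact hL2
    have h2 : Eᴴ = ψᴴ * L := by rw [hE, Matrix.conjTranspose_mul, hLt]
    rw [h2, ← h1, add_comm E' _, add_assoc, twoK, add_zero]
  have hEt' : E'ᴴ = 1 + E := by
    have h1 : E + L * ψᴴ = 1 := by rw [hE, ← Matrix.mul_add]; exact hL1
    have h2 : E'ᴴ = L * ψᴴ := by rw [hE', Matrix.conjTranspose_mul, hLt]
    rw [h2, ← h1, add_comm E _, add_assoc, twoK, add_zero]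
  have hlE : (ψ + ψᴴ) * E = ψ := by rw [hE, ← Matrix.mul_assoc, hL2, Matrix.one_mul]
  have hEL : E * L = L * E' := by rw [hE, hE', Matrix.mul_assoc]
  obtain ⟨lam, hlam⟩ : ∃ lam, lam = ψ + ψᴴ := ⟨_, rfl⟩
  rw [← hlam] at hL1 hL2 hlE
  refine ⟨Matrix.fromBlocks 1 (E * L) 1 ((1 + E) * L), Matrix.fromBlocks (1 + E) E lam lam,
    1 + E, (1 + E) * (E * L), lam, ?_, ?_, ⟨Matrix.fromBlocks 0 0 E 0, ?_⟩, ?_, ?_⟩
  · rw [Matrix.fromBlocks_multiply, ← Matrix.fromBlocks_one]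
    congr 1
    · rw [Matrix.mul_assoc, hL1, Matrix.one_mul, Matrix.mul_one, add_assoc, twoK, add_zero]
    · rw [Matrix.mul_assoc, hL1, Matrix.one_mul, Matrix.mul_one, twoK]
    · rw [Matrix.mul_assoc, hL1, Matrix.one_mul, Matrix.mul_one, twoK]
    · rw [Matrix.mul_assoc, hL1, Matrix.one_mul, Matrix.mul_one, add_comm (1 : Matrix κ κ S),
        ← add_assoc, twoK, zero_add]
  · rw [Matrix.fromBlocks_multiply, ← Matrix.fromBlocks_one]
    congr 1
    · rw [Matrix.mul_one, Matrix.mul_one, add_assoc, twoK, add_zero]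
    · have : (1 + E) * (E * L) + E * ((1 + E) * L) = (E * L + E * E * L) + (E * L + E * E * L) := by
        noncomm_ring
      rw [this, twoK]
    · rw [Matrix.mul_one, twoK]
    · have : lam * (E * L) + lam * ((1 + E) * L) = lam * L + (lam * E * L + lam * E * L) := by
        noncomm_ring
      rw [this, twoK, add_zero, hL2]
  · have hT : (Matrix.fromBlocks 1 (E * L) 1 ((1 + E) * L) : Matrix (κ ⊕ κ) (κ ⊕ κ) S)ᴴ
        = Matrix.fromBlocks 1 1 (L * (1 + E')) (L * E') := by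
      rw [Matrix.fromBlocks_conjTranspose, Matrix.conjTranspose_mul, Matrix.conjTranspose_mul,
        Matrix.conjTranspose_add, Matrix.conjTranspose_one, hLt, hEt]
      congr 2
      rw [← add_assoc, twoK, zero_add]
    rw [hT, Matrix.fromBlocks_multiply, Matrix.fromBlocks_multiply, Matrix.fromBlocks_conjTranspose,
      Matrix.fromBlocks_add, Matrix.fromBlocks_add]
    congr 1
    · simp [twoK]
    · have : ((1 : Matrix κ κ S) * ψ + (1 : Matrix κ κ S) * 0) * (E * L)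
          + ((1 : Matrix κ κ S) * 0 + (1 : Matrix κ κ S) * ψ) * ((1 + E) * L)
          = ψ * L + (ψ * E * L + ψ * E * L) := by noncomm_ring
      rw [this, twoK, add_zero, ← hE', hEt]
      rw [add_zero, ← add_assoc, twoK, zero_add]
    · have : (L * (1 + E') * ψ + L * E' * 0) * 1 + (L * (1 + E') * 0 + L * E' * ψ) * 1
          = L * ψ + (L * E' * ψ + L * E' * ψ) := by noncomm_ring
      rw [this, twoK, add_zero, ← hE]; simp
    · have : (L * (1 + E') * ψ + L * E' * 0) * (E * L) + (L * (1 + E') * 0 + L * E' * ψ)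
          * ((1 + E) * L) = L * (ψ * E + E' * ψ) * L + (L * E' * ψ * E * L + L * E' * ψ * E * L) := by
        noncomm_ring
      have h3 : ψ * E + E' * ψ = 0 := by
        rw [hE, hE', Matrix.mul_assoc, twoK]
      rw [this, twoK, h3]; simp
  · rw [Matrix.fromBlocks_multiply, Matrix.fromBlocks_multiply]
    have h22 : lam * (E * L) = ψ * L := by rw [← Matrix.mul_assoc, hlE]
    simp [h22]
  · have hpi : Matrix.fromBlocks (1 + E) E lam lam * Matrix.fromBlocks 1 0 0 0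
        * Matrix.fromBlocks 1 (E * L) 1 ((1 + E) * L)
        = Matrix.fromBlocks (1 + E) ((1 + E) * (E * L)) lam E' := by
      rw [Matrix.fromBlocks_multiply, Matrix.fromBlocks_multiply]
      have h22 : lam * (E * L) = E' := by rw [← Matrix.mul_assoc, hlE, hE']
      simp [h22]
    rw [hpi, dgc_fromBlocks]
    congr 1
    · rw [Matrix.conjTranspose_mul, Matrix.conjTranspose_mul, Matrix.conjTranspose_add,
        Matrix.conjTranspose_one, hLt, hEt]
      have h1 : L * (1 + E') * (1 + (1 + E')) = L * (E' + E' * E') := by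
        have h2 := twoK (L + L * E')
        calc L * (1 + E') * (1 + (1 + E'))
            = L * (E' + E' * E') + ((L + L * E') + (L + L * E')) := by noncomm_ring
          _ = _ := by rw [h2, add_zero]
      rw [h1, Matrix.mul_add, ← Matrix.mul_assoc L E' E', ← hEL, Matrix.mul_assoc E L E', ← hEL]
      noncomm_ring
    · rw [hlam, Matrix.conjTranspose_add, Matrix.conjTranspose_conjTranspose, add_comm]
    · rw [Matrix.conjTranspose_add, Matrix.conjTranspose_one, hEt, ← add_assoc, twoK, zero_add]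

/-- Existence of `g ⊗ ψ` and its invariant. -/
theorem glue_exists (hG : ∀ g : G, g * g = 1 → g = 1) (hP : Half δ P) (g : G) (ψ L : Matrix κ κ S)
    (hL1 : L * (ψ + ψᴴ) = 1) (hL2 : (ψ + ψᴴ) * L = 1) :
    ∃ u : (Matrix (κ ⊕ κ) (κ ⊕ κ) (MonoidAlgebra S G))ˣ,
      (∃ η, dual u.val * hyp S G κ * u.val = hyp S G κ + η + dual η) ∧ IsGlue2 g ψ u.val ∧
      inv1 hG hP u.val = if δ g = 1 then 0 else
        cls (ψ * L * (ψ * L) * (ψ * L) + ψ * L).trace := by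
  obtain ⟨p, q, a, b, c, hpq, hqp, ⟨η, hη⟩, hπ, hdπ⟩ := exists_glue ψ L hL1 hL2
  obtain ⟨t, ht⟩ : ∃ t : Matrix (κ ⊕ κ) (κ ⊕ κ) S, t = Matrix.fromBlocks 1 0 0 0 := ⟨_, rfl⟩
  obtain ⟨π, hπ'⟩ : ∃ π, π = q * Matrix.fromBlocks 1 0 0 0 * p := ⟨_, rfl⟩
  rw [← hπ'] at hπ hdπ
  have htt : t * t = t := by rw [ht, Matrix.fromBlocks_multiply]; simp
  rw [← ht] at hπ'
  have hidem : π * π = π := by
    have : q * t * p * (q * t * p) = q * (t * (p * q) * t) * p := by simp only [Matrix.mul_assoc]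
    rw [hπ', this, hpq, Matrix.mul_one, htt]
  have hpπ : p * π = t * p := by
    rw [hπ', ← Matrix.mul_assoc, ← Matrix.mul_assoc, hpq, Matrix.one_mul]
  obtain ⟨hex, hval⟩ := inv1_idem (δ := δ) hG hP g a b c _ π hπ hidem hdπ
  -- the inverse
  have hmul : ∀ x y : G, (cm x π + cm 1 (1 + π)) * (cm y π + cm 1 (1 + π))
      = cm (x * y) π + cm 1 (1 + π) := by
    intro x y
    have z1 : π * (1 + π) = 0 := by rw [Matrix.mul_add, Matrix.mul_one, hidem, twoK]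
    have z2 : (1 + π) * π = 0 := by rw [Matrix.add_mul, Matrix.one_mul, hidem, twoK]
    have z3 : (1 + π) * (1 + π) = 1 + π := by rw [Matrix.add_mul, z1, add_zero, Matrix.one_mul]
    rw [Matrix.add_mul, Matrix.mul_add, Matrix.mul_add, cm_mul, cm_mul, cm_mul, cm_mul, z1, z2, z3,
      hidem, cm_zero, cm_zero, add_zero, zero_add, one_mul]
  have hone : (cm (1 : G) π + cm 1 (1 + π)) = 1 := by
    rw [← cm_add, ← add_assoc, add_comm π 1, add_assoc, twoK, add_zero, cm_one]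
  let u : (Matrix (κ ⊕ κ) (κ ⊕ κ) (MonoidAlgebra S G))ˣ :=
    ⟨cm 1 (1 + π) + cm g π, cm 1 (1 + π) + cm g⁻¹ π,
      by rw [add_comm (cm 1 (1 + π)), add_comm (cm 1 (1 + π)), hmul, mul_inv_cancel, hone],
      by rw [add_comm (cm 1 (1 + π)), add_comm (cm 1 (1 + π)), hmul, inv_mul_cancel, hone]⟩
  refine ⟨u, hex, ⟨⟨cm 1 p, cm 1 q, ?_, ?_⟩, ⟨cm 1 η, ?_⟩, ?_⟩, hval⟩
  · rw [cm_mul, hpq, one_mul, cm_one]
  · rw [cm_mul, hqp, one_mul, cm_one]
  · change dual (cm 1 p) * cm 1 (Matrix.fromBlocks ψ 0 0 ψ) * cm 1 p = _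
    rw [dual_cm, cm_mul, cm_mul, inv_one, one_mul, one_mul, hη, cm_add, cm_add, dual_cm, inv_one,
      hyp_cm]
  · change cm 1 p * (cm 1 (1 + π) + cm g π) = gOne S G κ g * cm 1 p
    have hΔ : gOne S G κ g = cm g t + cm 1 (1 + t) := by
      have h1t : (1 : Matrix (κ ⊕ κ) (κ ⊕ κ) S) + t = Matrix.fromBlocks 0 0 0 1 := by
        rw [ht, ← Matrix.fromBlocks_one, Matrix.fromBlocks_add, twoK]; simp
      rw [gOne, diag_cm, h1t, ht, cm_fromBlocks, cm_fromBlocks, Matrix.fromBlocks_add]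
      simp [cm_zero, cm_one]
    rw [hΔ, Matrix.mul_add, Matrix.add_mul, cm_mul, cm_mul, cm_mul, cm_mul, one_mul,
      one_mul, mul_one, hpπ, Matrix.mul_add, hpπ, Matrix.mul_one, Matrix.add_mul, Matrix.one_mul,
      add_comm]

/-- The invariant of `g ⊗ ψ`. -/
theorem inv1_glue (hG : ∀ g : G, g * g = 1 → g = 1) (hP : Half δ P) (g : G) (ψ L : Matrix κ κ S)
    (hL1 : L * (ψ + ψᴴ) = 1) (hL2 : (ψ + ψᴴ) * L = 1)
    (u : (Matrix (κ ⊕ κ) (κ ⊕ κ) (MonoidAlgebra S G))ˣ)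
    (hu' : ∃ η, dual u.val * hyp S G κ * u.val = hyp S G κ + η + dual η)
    (hu : IsGlue2 g ψ u.val) :
    inv1 hG hP u.val = if δ g = 1 then 0 else
      cls (ψ * L * (ψ * L) * (ψ * L) + ψ * L).trace := by
  obtain ⟨u₀, hu₀, ⟨p₀, ⟨η₀, hη₀⟩, h₀⟩, hval⟩ := glue_exists (δ := δ) hG hP g ψ L hL1 hL2
  obtain ⟨p, ⟨η, hη⟩, h⟩ := hu
  rw [← hval]
  obtain ⟨Ψ, hΨ⟩ : ∃ Ψ, cm (1 : G) (Matrix.fromBlocks ψ 0 0 ψ) = Ψ := ⟨_, rfl⟩
  obtain ⟨Δ, hΔ⟩ : ∃ Δ, gOne S G κ g = Δ := ⟨_, rfl⟩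
  rw [hΨ] at hη₀ hη
  rw [hΔ] at h₀ h
  -- `v = p₀⁻¹ p` is an isometry of the hyperbolic form
  have hv : ∃ θ, dual (p₀⁻¹ * p).val * hyp S G κ * (p₀⁻¹ * p).val = hyp S G κ + θ + dual θ := by
    have e1 : hyp S G κ = dual p₀.val * Ψ * p₀.val + (η₀ + dual η₀) := by
      rw [hη₀, add_assoc (hyp S G κ), add_assoc, twoM, add_zero]
    have e2 : p₀.val * (p₀⁻¹ * p).val = p.val := by
      rw [Units.val_mul, ← Matrix.mul_assoc, Units.mul_inv, Matrix.one_mul]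
    have e3 : dual (p₀⁻¹ * p).val * (dual p₀.val * Ψ * p₀.val) * (p₀⁻¹ * p).val
        = dual p.val * Ψ * p.val := by
      rw [← e2, dual_mul]; simp only [Matrix.mul_assoc]
    refine ⟨η + dual (p₀⁻¹ * p).val * η₀ * (p₀⁻¹ * p).val, ?_⟩
    nth_rw 1 [e1]
    rw [Matrix.mul_add, Matrix.add_mul, e3, hη, Matrix.mul_add, Matrix.add_mul, dual_add, dual_mul,
      dual_mul, dual_dual, ← Matrix.mul_assoc]
    abel
  have huv : (p₀⁻¹ * p).val * u.val = u₀.val * (p₀⁻¹ * p).val := by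
    have e4 : u₀.val = p₀⁻¹.val * (Δ * p₀.val) := by
      rw [← h₀, ← Matrix.mul_assoc, Units.inv_mul, Matrix.one_mul]
    rw [Units.val_mul, Matrix.mul_assoc, h, e4]
    calc p₀⁻¹.val * (Δ * p.val) = p₀⁻¹.val * (Δ * ((p₀.val * p₀⁻¹.val) * p.val)) := by
          rw [Units.mul_inv, Matrix.one_mul]
      _ = _ := by simp only [Matrix.mul_assoc]
  have h5 : inv1 hG hP ((p₀⁻¹ * p).val * u.val) = inv1 hG hP (u₀.val * (p₀⁻¹ * p).val) := by
    rw [huv]
  rw [inv1_mul hG hP _ _ hv hu', inv1_mul hG hP _ _ hu₀ hv, add_comm] at h5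
  exact add_right_cancel h5

end Char2

end Pool.Agent.Lib.MP8a3537.D1R
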