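import Pool.Agent.Lib.MP_8a3537_gt.D1.Inst
import Pool.Agent.Lib.MP_8a3537_gt.D1R.Defs

/-!
# Functionals on the group ring, with values in `V(S)`
-/

namespace Pool.Agent.Lib.MP8a3537.D1R

open Matrix MonoidAlgebra
open Pool.Agent.Lib.MP8a3537.D1 (Half odd odd_inv mul_zmod)

set_option linter.unusedSectionVars false

variable {S G : Type*} [Ring S] [StarRing S] [Group G]

/-- coefficient at the identity -/
noncomputable def c1 : MonoidAlgebra S G →+ S where
  toFun x := x.coeff 1
  map_zero' := by simp
  map_add' x y := by rw [MonoidAlgebra.coeff_add]; rfl

open Classical in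
lemma c1_single (g : G) (r : S) :
    c1 (MonoidAlgebra.single g r) = if g = 1 then r else 0 := by
  show (MonoidAlgebra.single g r).coeff 1 = _
  rw [MonoidAlgebra.coeff_single, Finsupp.single_apply]

/-- class in `V(S)` of the coefficient at the identity -/
noncomputable def t1 : MonoidAlgebra S G →+ V S := cls.comp c1

open Classical in
lemma t1_single (g : G) (r : S) :
    t1 (MonoidAlgebra.single g r) = if g = 1 then cls r else 0 := by
  show cls (c1 _) = _
  rw [c1_single]
  split_ifs
  · rfl
  · exact map_zero _

lemma c1_conj (x : MonoidAlgebra S G) : c1 (conj x) = star (c1 x) := by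
  classical
  induction x using MonoidAlgebra.induction_linear with
  | zero => simp [conj_zero]
  | add x x' hx hx' => rw [conj_add, map_add, map_add, hx, hx', star_add]
  | single g r =>
    rw [conj_single, c1_single, c1_single, inv_eq_one]
    split_ifs <;> simp

lemma t1_mul_comm (x y : MonoidAlgebra S G) : t1 (x * y) = t1 (y * x) := by
  classical
  induction x using MonoidAlgebra.induction_linear with
  | zero => simp
  | add x x' hx hx' => rw [add_mul, mul_add, map_add, map_add, hx, hx']
  | single g r =>
    induction y using MonoidAlgebra.induction_linear with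
    | zero => simp
    | add y y' hy hy' => rw [mul_add, add_mul, map_add, map_add, hy, hy']
    | single h s =>
      rw [MonoidAlgebra.single_mul_single, MonoidAlgebra.single_mul_single, t1_single, t1_single,
        cls_comm r s]
      have h1 : g * h = 1 ↔ h * g = 1 := mul_eq_one_iff_eq_inv.trans
        (by rw [mul_eq_one_iff_eq_inv]; constructor <;> (intro e; rw [e, inv_inv]))
      by_cases h2 : g * h = 1
      · rw [if_pos h2, if_pos (h1.mp h2)]
      · rw [if_neg h2, if_neg (fun e => h2 (h1.mpr e))]

lemma t1_conj (x : MonoidAlgebra S G) : t1 (conj x) = t1 x := by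
  show cls (c1 _) = cls (c1 _)
  rw [c1_conj, cls_star]

open Classical in
/-- restriction to a set of group elements -/
noncomputable def restr (P : Set G) : MonoidAlgebra S G →+ MonoidAlgebra S G where
  toFun x := x.coeff.sum fun g r => if g ∈ P then MonoidAlgebra.single g r else 0
  map_zero' := by simp
  map_add' x y := by
    rw [MonoidAlgebra.coeff_add, Finsupp.sum_add_index']
    · intro g; simp
    · intro g r s; split_ifs <;> simp

open Classical in
lemma restr_single (P : Set G) (g : G) (r : S) :
    restr P (MonoidAlgebra.single g r) = if g ∈ P then MonoidAlgebra.single g r else 0 := by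
  change (MonoidAlgebra.single g r).coeff.sum
    (fun g r => if g ∈ P then MonoidAlgebra.single g r else 0) = _
  rw [MonoidAlgebra.coeff_single, Finsupp.sum_single_index]
  simp

lemma conj_restr (P : Set G) (hP : ∀ g, g ∈ P ↔ g⁻¹ ∈ P) (x : MonoidAlgebra S G) :
    restr P (conj x) = conj (restr P x) := by
  classical
  induction x using MonoidAlgebra.induction_linear with
  | zero => simp [conj_zero]
  | add x x' hx hx' => rw [conj_add, map_add, map_add, conj_add, hx, hx']
  | single g r =>
    rw [conj_single, restr_single, restr_single]
    by_cases h : g ∈ P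
    · rw [if_pos h, if_pos ((hP g).mp h), conj_single]
    · rw [if_neg h, if_neg (fun h' => h ((hP g).mpr h')), conj_zero]

variable (δ : G →* Multiplicative (ZMod 2))

/-- the derivation -/
noncomputable def der : MonoidAlgebra S G →+ MonoidAlgebra S G := restr (odd δ)

lemma t1_der (x : MonoidAlgebra S G) : t1 (der δ x) = 0 := by
  classical
  induction x using MonoidAlgebra.induction_linear with
  | zero => simp
  | add x x' hx hx' => rw [map_add, map_add, hx, hx', add_zero]
  | single g r =>
    unfold der
    rw [restr_single]
    by_cases h : g ∈ odd δ
    · rw [if_pos h, t1_single, if_neg]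
      intro h1
      apply h
      rw [h1, map_one]
    · rw [if_neg h, map_zero]

/-- the polarization of the half sum -/
lemma t1_half {P : Set G} (hP : Half δ P) (x y : MonoidAlgebra S G) :
    t1 (restr P x * y) + t1 (restr P y * x) = t1 (der δ x * y) := by
  classical
  induction x using MonoidAlgebra.induction_linear with
  | zero => simp
  | add x x' hx hx' =>
    simp only [map_add, add_mul, mul_add]
    rw [← hx, ← hx']; abel
  | single g r =>
    induction y using MonoidAlgebra.induction_linear with
    | zero => simp
    | add y y' hy hy' =>
      simp only [map_add, add_mul, mul_add]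
      rw [← hy, ← hy']; abel
    | single h s =>
      unfold der
      rw [restr_single, restr_single, restr_single]
      by_cases hgh : g * h = 1
      · have hh : h = g⁻¹ := (inv_eq_of_mul_eq_one_right hgh).symm
        subst hh
        by_cases hg : g ∈ odd δ
        · by_cases hp : g ∈ P
          · have hp' : g⁻¹ ∉ P := (hP.split g hg).mp hp
            rw [if_pos hp, if_neg hp', if_pos hg, zero_mul, map_zero, add_zero]
          · have hp' : g⁻¹ ∈ P := by
              by_contra h'; exact hp ((hP.split g hg).mpr h')
            rw [if_neg hp, if_pos hp', if_pos hg, zero_mul, map_zero, zero_add, t1_mul_comm]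
        · have hp : g ∉ P := fun h' => hg (hP.odd g h')
          have hp' : g⁻¹ ∉ P := fun h' => hg ((odd_inv δ g).mpr (hP.odd _ h'))
          rw [if_neg hp, if_neg hp', if_neg hg, zero_mul, zero_mul, map_zero, add_zero]
      · have z1 : ∀ a b : S, t1 (MonoidAlgebra.single g a * MonoidAlgebra.single h b) = 0 := by
          intro a b
          rw [MonoidAlgebra.single_mul_single, t1_single, if_neg hgh]
        have z2 : ∀ a b : S, t1 (MonoidAlgebra.single h a * MonoidAlgebra.single g b) = 0 := by
          intro a b
          rw [t1_mul_comm]; exact z1 b a
        split_ifs <;> simp only [zero_mul, map_zero, add_zero, z1, z2]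

section Char2

variable [Two S]

lemma two_alg (x : MonoidAlgebra S G) : x + x = 0 := by
  induction x using MonoidAlgebra.induction_linear with
  | zero => simp
  | add x x' hx hx' =>
    have : x + x' + (x + x') = (x + x) + (x' + x') := by abel
    rw [this, hx, hx', add_zero]
  | single g r => rw [← MonoidAlgebra.single_add, Two.two, MonoidAlgebra.single_zero]

lemma der_mul (x y : MonoidAlgebra S G) : der δ (x * y) = der δ x * y + x * der δ y := by
  classical
  induction x using MonoidAlgebra.induction_linear with
  | zero => simp
  | add x x' hx hx' => rw [add_mul, map_add, hx, hx', map_add]; simp only [add_mul]; abel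
  | single g r =>
    induction y using MonoidAlgebra.induction_linear with
    | zero => simp
    | add y y' hy hy' => rw [mul_add, map_add, hy, hy', map_add]; simp only [mul_add]; abel
    | single h s =>
      unfold der
      rw [MonoidAlgebra.single_mul_single, restr_single, restr_single, restr_single]
      have h1 : g * h ∈ odd δ ↔ (g ∈ odd δ ↔ h ∉ odd δ) := by
        simp only [odd, Set.mem_ofPred_eq, map_mul, not_not]
        exact mul_zmod _ _
      by_cases hg : g ∈ odd δ
      · by_cases hh : h ∈ odd δ
        · rw [if_neg (fun e => (h1.mp e).mp hg hh), if_pos hg, if_pos hh,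
            MonoidAlgebra.single_mul_single, two_alg]
        · rw [if_pos (h1.mpr ⟨fun _ => hh, fun _ => hg⟩), if_pos hg, if_neg hh,
            MonoidAlgebra.single_mul_single, mul_zero, add_zero]
      · by_cases hh : h ∈ odd δ
        · rw [if_pos (h1.mpr ⟨fun e => absurd e hg, fun e => absurd hh e⟩), if_neg hg, if_pos hh,
            MonoidAlgebra.single_mul_single, zero_mul, zero_add]
        · rw [if_neg (fun e => hg ((h1.mp e).mpr hh)), if_neg hg, if_neg hh, zero_mul, mul_zero,
            add_zero]

end Char2

end Pool.Agent.Lib.MP8a3537.D1R
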