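import Pool.Agent.Lib.MP_8a3537_gt.D1R.Mat

/-!
# The invariant on the isometry groups
-/

namespace Pool.Agent.Lib.MP8a3537.D1R

open Matrix MonoidAlgebra
open Pool.Agent.Lib.MP8a3537.D1 (Half odd odd_inv mul_zmod Sys)

set_option linter.unusedSectionVars false

variable {S G : Type*} [Ring S] [StarRing S] [Group G]
variable {κ : Type*} [Fintype κ] [DecidableEq κ]

variable (S G κ) in
/-- the matrix `(0 1; 1 0)` -/
noncomputable def Jm : Matrix (κ ⊕ κ) (κ ⊕ κ) (MonoidAlgebra S G) := Matrix.fromBlocks 0 1 1 0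

variable (S G κ) in
/-- the matrix `(0 0; 0 1)` -/
noncomputable def Em : Matrix (κ ⊕ κ) (κ ⊕ κ) (MonoidAlgebra S G) := Matrix.fromBlocks 0 0 0 1

lemma Jm_mul_Jm : Jm S G κ * Jm S G κ = 1 := by
  unfold Jm
  rw [Matrix.fromBlocks_multiply]
  simp [Matrix.fromBlocks_one]

lemma dual_Jm : dual (Jm S G κ) = Jm S G κ := by
  unfold Jm
  rw [dual_fromBlocks, dual_zero, dual_one]

lemma dual_Em : dual (Em S G κ) = Em S G κ := by
  unfold Em
  rw [dual_fromBlocks, dual_zero, dual_one]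

lemma Jm_mul_Em : Jm S G κ * Em S G κ = hyp S G κ := by
  unfold Jm Em hyp
  rw [Matrix.fromBlocks_multiply]
  simp

lemma Jm_mul_hyp : Jm S G κ * hyp S G κ = Em S G κ := by
  rw [← Jm_mul_Em, ← Matrix.mul_assoc, Jm_mul_Jm, Matrix.one_mul]

lemma Jm_fromBlocks (a b c d : Matrix κ κ (MonoidAlgebra S G)) :
    Jm S G κ * Matrix.fromBlocks a b c d = Matrix.fromBlocks c d a b := by
  unfold Jm
  rw [Matrix.fromBlocks_multiply]
  simp

lemma fromBlocks_Jm (a b c d : Matrix κ κ (MonoidAlgebra S G)) :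
    Matrix.fromBlocks a b c d * Jm S G κ = Matrix.fromBlocks b a d c := by
  unfold Jm
  rw [Matrix.fromBlocks_multiply]
  simp

lemma Em_fromBlocks (a b c d : Matrix κ κ (MonoidAlgebra S G)) :
    Em S G κ * Matrix.fromBlocks a b c d = Matrix.fromBlocks 0 0 c d := by
  unfold Em
  rw [Matrix.fromBlocks_multiply]
  simp

/-- the adjoint with respect to the hyperbolic form -/
noncomputable def dgm (x : Matrix (κ ⊕ κ) (κ ⊕ κ) (MonoidAlgebra S G)) :
    Matrix (κ ⊕ κ) (κ ⊕ κ) (MonoidAlgebra S G) :=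
  Jm S G κ * dual x * Jm S G κ

lemma dgm_fromBlocks (a b c d : Matrix κ κ (MonoidAlgebra S G)) :
    dgm (Matrix.fromBlocks a b c d) = Matrix.fromBlocks (dual d) (dual b) (dual c) (dual a) := by
  rw [dgm, dual_fromBlocks, Jm_fromBlocks, fromBlocks_Jm]

lemma dgm_mul (x y : Matrix (κ ⊕ κ) (κ ⊕ κ) (MonoidAlgebra S G)) :
    dgm (x * y) = dgm y * dgm x := by
  unfold dgm
  rw [dual_mul]
  calc Jm S G κ * (dual y * dual x) * Jm S G κ
      = Jm S G κ * dual y * (1 * (dual x * Jm S G κ)) := by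
        rw [Matrix.one_mul]; simp only [Matrix.mul_assoc]
    _ = _ := by rw [← Jm_mul_Jm]; simp only [Matrix.mul_assoc]

lemma dgm_dgm (x : Matrix (κ ⊕ κ) (κ ⊕ κ) (MonoidAlgebra S G)) : dgm (dgm x) = x := by
  unfold dgm
  rw [dual_mul, dual_mul, dual_dual, dual_Jm]
  calc Jm S G κ * (Jm S G κ * (x * Jm S G κ)) * Jm S G κ
      = (Jm S G κ * Jm S G κ) * x * (Jm S G κ * Jm S G κ) := by simp only [Matrix.mul_assoc]
    _ = x := by rw [Jm_mul_Jm, Matrix.one_mul, Matrix.mul_one]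

lemma fromBlocks_toBlocks' {α β γ ε R : Type*} (x : Matrix (α ⊕ β) (γ ⊕ ε) R) :
    ∃ a b c d, x = Matrix.fromBlocks a b c d :=
  ⟨_, _, _, _, (Matrix.fromBlocks_toBlocks x).symm⟩

lemma Rm_fromBlocks {α β γ ε : Type*} (P : Set G)
    (a : Matrix α γ (MonoidAlgebra S G)) (b : Matrix α ε (MonoidAlgebra S G))
    (c : Matrix β γ (MonoidAlgebra S G)) (d : Matrix β ε (MonoidAlgebra S G)) :
    Rm P (Matrix.fromBlocks a b c d)
      = Matrix.fromBlocks (Rm P a) (Rm P b) (Rm P c) (Rm P d) := by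
  ext1 i j
  rcases i with i | i <;> rcases j with j | j <;> rfl

lemma Dm_fromBlocks {α β γ ε : Type*} (δ : G →* Multiplicative (ZMod 2))
    (a : Matrix α γ (MonoidAlgebra S G)) (b : Matrix α ε (MonoidAlgebra S G))
    (c : Matrix β γ (MonoidAlgebra S G)) (d : Matrix β ε (MonoidAlgebra S G)) :
    Dm δ (Matrix.fromBlocks a b c d)
      = Matrix.fromBlocks (Dm δ a) (Dm δ b) (Dm δ c) (Dm δ d) :=
  Rm_fromBlocks _ a b c d

lemma Rm_one {α : Type*} [Fintype α] [DecidableEq α] (P : Set G) (h : (1 : G) ∉ P) :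
    Rm P (1 : Matrix α α (MonoidAlgebra S G)) = 0 := by
  classical
  ext1 i j
  rw [Rm_apply]
  by_cases hij : i = j
  · subst hij
    rw [Matrix.one_apply_eq, MonoidAlgebra.one_def, restr_single, if_neg h]; rfl
  · rw [Matrix.one_apply_ne hij, map_zero]; rfl

lemma one_notMem_odd (δ : G →* Multiplicative (ZMod 2)) : (1 : G) ∉ odd δ := by simp [odd]

lemma Dm_Em (δ : G →* Multiplicative (ZMod 2)) : Dm δ (Em S G κ) = 0 := by
  unfold Em
  rw [Dm_fromBlocks, map_zero]
  change Matrix.fromBlocks 0 0 0 (Rm (odd δ) 1) = 0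
  rw [Rm_one _ (one_notMem_odd δ), Matrix.fromBlocks_zero]

lemma Dm_Jm (δ : G →* Multiplicative (ZMod 2)) : Dm δ (Jm S G κ) = 0 := by
  unfold Jm
  rw [Dm_fromBlocks, map_zero]
  change Matrix.fromBlocks 0 (Rm (odd δ) 1) (Rm (odd δ) 1) 0 = 0
  rw [Rm_one _ (one_notMem_odd δ), Matrix.fromBlocks_zero]

lemma trace_blocks {α β R : Type*} [Fintype α] [Fintype β] [AddCommMonoid R] (a : Matrix α α R)
    (b : Matrix α β R) (c : Matrix β α R) (d : Matrix β β R) :
    (Matrix.fromBlocks a b c d).trace = a.trace + d.trace := by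
  simp [Matrix.trace, Fintype.sum_sum_type]

lemma Qm_J {P : Set G} (x : Matrix (κ ⊕ κ) (κ ⊕ κ) (MonoidAlgebra S G)) :
    Qm P (Jm S G κ * x * Jm S G κ) = Qm P x := by
  obtain ⟨a, b, c, d, rfl⟩ := fromBlocks_toBlocks' x
  unfold Qm
  rw [Jm_fromBlocks, fromBlocks_Jm, Rm_fromBlocks, Rm_fromBlocks, Matrix.fromBlocks_multiply,
    Matrix.fromBlocks_multiply, trace_blocks, trace_blocks]
  simp only [map_add, Matrix.trace_add]
  abel

section Char2

variable [Two S]

lemma Em_add_dgm : Em S G κ + dgm (Em S G κ) = 1 := by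
  unfold Em
  rw [dgm_fromBlocks, dual_one, dual_zero, Matrix.fromBlocks_add]
  simp [Matrix.fromBlocks_one]

lemma Em_sq : Em S G κ * Em S G κ = Em S G κ := by
  nth_rw 2 [Em]
  rw [Em_fromBlocks]; rfl

/-- The system on `M_{2n}(S[G])` belonging to `δ`. -/
noncomputable def sys (κ : Type*) [Fintype κ] [DecidableEq κ] {δ : G →* Multiplicative (ZMod 2)}
    {P : Set G} (hG : ∀ g : G, g * g = 1 → g = 1) (hP : Half δ P) :
    Sys (Matrix (κ ⊕ κ) (κ ⊕ κ) (MonoidAlgebra S G)) (V S) where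
  T := t1.comp (Matrix.traceAddMonoidHom (κ ⊕ κ) (MonoidAlgebra S G))
  D := Dm δ
  dg := { toFun := dgm
          map_zero' := by simp [dgm, dual_zero]
          map_add' := fun x y => by simp [dgm, dual_add, Matrix.mul_add, Matrix.add_mul] }
  Q x := Qm P x
  twoB := twoM
  twoV := two_V
  T_comm x y := tr_mul_comm x y
  T_dg x := by
    show t1 (dgm x).trace = t1 x.trace
    rw [dgm, tr_mul_comm, ← Matrix.mul_assoc, Jm_mul_Jm, Matrix.one_mul, tr_dual]
  dg_mul := dgm_mul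
  dg_dg := dgm_dgm
  D_mul := Dm_mul δ
  D_dg x := by
    show Dm δ (dgm x) = dgm (Dm δ x)
    rw [dgm, dgm, Dm_mul, Dm_mul, Dm_Jm, Matrix.zero_mul, Matrix.mul_zero, zero_add, add_zero,
      Dm_dual]
  T_D x := tr_Dm δ x
  Q_add x y := Qm_add δ hP x y
  Q_dg x := by
    show Qm P (dgm x) = Qm P x
    rw [dgm, Qm_J, Qm_dual δ hG hP]
  Q_M u v := Qm_M δ hG hP u v
  E := Em S G κ
  E_dg := Em_add_dgm
  E_sq := Em_sq
  D_E := Dm_Em δ

variable {δ : G →* Multiplicative (ZMod 2)} {P : Set G}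

/-- The isometry relation in terms of the adjoint. -/
lemma rel_of {u η : Matrix (κ ⊕ κ) (κ ⊕ κ) (MonoidAlgebra S G)}
    (h : dual u * hyp S G κ * u = hyp S G κ + η + dual η) :
    dgm u * Em S G κ * u = Em S G κ + Jm S G κ * η + dgm (Jm S G κ * η) := by
  have h1 : dgm u * Em S G κ * u = Jm S G κ * (dual u * hyp S G κ * u) := by
    rw [dgm, Matrix.mul_assoc (Jm S G κ * dual u), Jm_mul_Em]
    simp only [Matrix.mul_assoc]
  have h2 : dgm (Jm S G κ * η) = Jm S G κ * dual η := by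
    rw [dgm, dual_mul, dual_Jm, ← Matrix.mul_assoc, Matrix.mul_assoc, Jm_mul_Jm, Matrix.mul_one]
  rw [h1, h, Matrix.mul_add, Matrix.mul_add, Jm_mul_hyp, h2]

lemma hyp_add_dual : hyp S G κ + dual (hyp S G κ) = Jm S G κ := by
  unfold hyp Jm
  rw [dual_fromBlocks, dual_zero, dual_one, Matrix.fromBlocks_add]
  simp

lemma dgm_mul_self {u η : Matrix (κ ⊕ κ) (κ ⊕ κ) (MonoidAlgebra S G)}
    (h : dual u * hyp S G κ * u = hyp S G κ + η + dual η) : dgm u * u = 1 := by
  have h1 : dual u * Jm S G κ * u = Jm S G κ := by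
    have h2 : dual u * dual (hyp S G κ) * u = dual (hyp S G κ) + dual η + η := by
      have := congrArg dual h
      rw [dual_mul, dual_mul, dual_dual, dual_add, dual_add, dual_dual] at this
      rw [Matrix.mul_assoc]; exact this
    rw [← hyp_add_dual, Matrix.mul_add, Matrix.add_mul, h, h2]
    have h3 := twoM η
    have h4 := twoM (dual η)
    calc hyp S G κ + η + dual η + (dual (hyp S G κ) + dual η + η)
        = hyp S G κ + dual (hyp S G κ) + ((η + η) + (dual η + dual η)) := by abel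
      _ = _ := by rw [h3, h4, add_zero, add_zero]
  rw [dgm]
  calc Jm S G κ * dual u * Jm S G κ * u = Jm S G κ * (dual u * Jm S G κ * u) := by
        simp only [Matrix.mul_assoc]
    _ = 1 := by rw [h1, Jm_mul_Jm]

open Classical in
/-- the invariant of an isometry -/
noncomputable def inv1 (hG : ∀ g : G, g * g = 1 → g = 1) (hP : Half δ P)
    (u : Matrix (κ ⊕ κ) (κ ⊕ κ) (MonoidAlgebra S G)) : V S :=
  if h : ∃ η, dual u * hyp S G κ * u = hyp S G κ + η + dual η then
    (sys κ hG hP).kappa (Jm S G κ * h.choose) else 0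

lemma inv1_eq (hG : ∀ g : G, g * g = 1 → g = 1) (hP : Half δ P)
    {u η : Matrix (κ ⊕ κ) (κ ⊕ κ) (MonoidAlgebra S G)}
    (h : dual u * hyp S G κ * u = hyp S G κ + η + dual η) :
    inv1 hG hP u = (sys κ hG hP).kappa (Jm S G κ * η) := by
  have hex : ∃ η, dual u * hyp S G κ * u = hyp S G κ + η + dual η := ⟨η, h⟩
  unfold inv1
  rw [dif_pos hex]
  apply Sys.kappa_indep
  have h1 := rel_of hex.choose_spec
  have h2 := rel_of h
  rw [h2, add_assoc, add_assoc] at h1
  exact (add_left_cancel h1).symm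

theorem inv1_mul (hG : ∀ g : G, g * g = 1 → g = 1) (hP : Half δ P)
    (u v : (Matrix (κ ⊕ κ) (κ ⊕ κ) (MonoidAlgebra S G))ˣ)
    (hu : ∃ η, dual u.val * hyp S G κ * u.val = hyp S G κ + η + dual η)
    (hv : ∃ η, dual v.val * hyp S G κ * v.val = hyp S G κ + η + dual η) :
    inv1 hG hP (u.val * v.val) = inv1 hG hP u.val + inv1 hG hP v.val := by
  obtain ⟨η, hη⟩ := hu
  obtain ⟨θ, hθ⟩ := hv
  have hu1 : dgm u.val * u.val = 1 := dgm_mul_self hη
  have hv1 : dgm v.val * v.val = 1 := dgm_mul_self hθ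
  have hu2 : u.val * dgm u.val = 1 := by
    have : dgm u.val = u⁻¹.val := by
      calc dgm u.val = dgm u.val * (u.val * u⁻¹.val) := by rw [Units.mul_inv, Matrix.mul_one]
        _ = u⁻¹.val := by rw [← Matrix.mul_assoc, hu1, Matrix.one_mul]
    rw [this, Units.mul_inv]
  have hv2 : v.val * dgm v.val = 1 := by
    have : dgm v.val = v⁻¹.val := by
      calc dgm v.val = dgm v.val * (v.val * v⁻¹.val) := by rw [Units.mul_inv, Matrix.mul_one]
        _ = v⁻¹.val := by rw [← Matrix.mul_assoc, hv1, Matrix.one_mul]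
    rw [this, Units.mul_inv]
  have hprod : dual (u.val * v.val) * hyp S G κ * (u.val * v.val)
      = hyp S G κ + (θ + dual v.val * η * v.val) + dual (θ + dual v.val * η * v.val) := by
    have h : dual (u.val * v.val) * hyp S G κ * (u.val * v.val)
        = dual v.val * (dual u.val * hyp S G κ * u.val) * v.val := by
      rw [dual_mul]; simp only [Matrix.mul_assoc]
    rw [h, hη, Matrix.mul_add, Matrix.mul_add, Matrix.add_mul, Matrix.add_mul, hθ, dual_add,
      dual_mul, dual_mul, dual_dual, ← Matrix.mul_assoc]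
    abel
  rw [inv1_eq hG hP hη, inv1_eq hG hP hθ, inv1_eq hG hP hprod]
  have hN : Jm S G κ * (θ + dual v.val * η * v.val)
      = Jm S G κ * θ + dgm v.val * (Jm S G κ * η) * v.val := by
    rw [Matrix.mul_add, dgm]
    congr 1
    calc Jm S G κ * (dual v.val * η * v.val)
        = Jm S G κ * dual v.val * (1 * η) * v.val := by
          rw [Matrix.one_mul]; simp only [Matrix.mul_assoc]
      _ = _ := by rw [← Jm_mul_Jm]; simp only [Matrix.mul_assoc]
  rw [hN]
  exact (sys κ hG hP).kappa_mul u.val (dgm u.val) v.val (dgm v.val) _ _ hu1 hu2 rfl hv1 hv2 rfl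
    (rel_of hη) (rel_of hθ)

end Char2

end Pool.Agent.Lib.MP8a3537.D1R
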