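import Pool.Agent.Lib.MP_8a3537_gt.D1R.Stab

/-!
# Every ring with involution: reduction modulo two
-/

namespace Pool.Agent.Lib.MP8a3537.D1R

open Matrix MonoidAlgebra
open Pool.Agent.Lib.MP8a3537.D1 (Half odd odd_inv mul_zmod Sys)

set_option linter.unusedSectionVars false

variable {R G : Type*} [Ring R] [StarRing R] [Group G]
variable {κ : Type*} [Fintype κ] [DecidableEq κ]

/-- The isometry `u` of the hyperbolic form is a copy of the isometry `g ⊕ 1` of the
`ε`-quadratic form `ψ ⊕ -ψ`, where `ψ` is a matrix over `R`: there is an isometry `p` from the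
hyperbolic form to `ψ ⊕ -ψ` with `p u = (g ⊕ 1) p`. -/
def IsGlue {ε : ℤˣ} (g : G) (ψ : Matrix κ κ R) (u : Isom R G ε κ) : Prop :=
  ∃ p : (Matrix (κ ⊕ κ) (κ ⊕ κ) (MonoidAlgebra R G))ˣ,
    (∃ η, dual p.val * (Matrix.fromBlocks ψ 0 0 (-ψ)).map (MonoidAlgebra.single 1) * p.val
      = hyp R G κ + η - (ε : ℤ) • dual η) ∧
    p.val * u.1.val
      = Matrix.fromBlocks (Matrix.diagonal fun _ => MonoidAlgebra.single g 1) 0 0 1 * p.val

/-! ### Existence of `g ⊗ ψ` -/

lemma eps_sq (ε : ℤˣ) : (ε : ℤ) * (ε : ℤ) = 1 := by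
  rcases Int.units_eq_one_or ε with h | h <;> simp [h]

lemma cH_zsmul {α β : Type*} (c : ℤ) (x : Matrix α β R) : (c • x)ᴴ = c • xᴴ := by
  ext1 i j
  exact map_zsmul (starAddEquiv : R ≃+ R) c _

lemma cm_zsmul {α β : Type*} (g : G) (c : ℤ) (x : Matrix α β R) : cm g (c • x) = c • cm g x :=
  map_zsmul (AddMonoidHom.mk' (cm (S := R) g) (cm_add g)) c x

lemma cm_sub {α β : Type*} (g : G) (x y : Matrix α β R) : cm g (x - y) = cm g x - cm g y :=
  map_sub (AddMonoidHom.mk' (cm (S := R) g) (cm_add g)) x y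

lemma fb_sub (a b c d a' b' c' d' : Matrix κ κ R) :
    Matrix.fromBlocks a b c d - Matrix.fromBlocks a' b' c' d'
      = Matrix.fromBlocks (a - a') (b - b') (c - c') (d - d') := by
  rw [sub_eq_add_neg, Matrix.fromBlocks_neg, Matrix.fromBlocks_add]
  simp only [sub_eq_add_neg]

theorem canonical (ε : ℤˣ) (ψ L : Matrix κ κ R) (hL1 : L * (ψ + (ε : ℤ) • ψᴴ) = 1)
    (hL2 : (ψ + (ε : ℤ) • ψᴴ) * L = 1) :
    ∃ p q : Matrix (κ ⊕ κ) (κ ⊕ κ) R, p * q = 1 ∧ q * p = 1 ∧
      ∃ η : Matrix (κ ⊕ κ) (κ ⊕ κ) R, pᴴ * Matrix.fromBlocks ψ 0 0 (-ψ) * p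
        = Matrix.fromBlocks 0 1 0 0 + η - (ε : ℤ) • ηᴴ := by
  have he := eps_sq ε
  obtain ⟨e, hee⟩ : ∃ e : ℤ, e = (ε : ℤ) := ⟨_, rfl⟩
  rw [← hee] at hL1 hL2 he ⊢
  have smul_smul' : ∀ x : Matrix κ κ R, e • e • x = x := by
    intro x; rw [smul_smul, he, one_smul]
  have hLt : Lᴴ = e • L := by
    have h1 : Lᴴ * (e • (ψ + e • ψᴴ)) = 1 := by
      have := congrArg Matrix.conjTranspose hL2
      rw [Matrix.conjTranspose_mul, Matrix.conjTranspose_add, cH_zsmul,
        Matrix.conjTranspose_conjTranspose, Matrix.conjTranspose_one] at this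
      rw [smul_add, smul_smul', add_comm]; exact this
    have h3 : (e • (ψ + e • ψᴴ)) * (e • L) = 1 := by
      rw [Matrix.smul_mul, Matrix.mul_smul, hL2, smul_smul']
    calc Lᴴ = Lᴴ * ((e • (ψ + e • ψᴴ)) * (e • L)) := by rw [h3, Matrix.mul_one]
      _ = e • L := by rw [← Matrix.mul_assoc, h1, Matrix.one_mul]
  obtain ⟨E, hE⟩ : ∃ E, E = L * ψ := ⟨_, rfl⟩
  obtain ⟨lam, hlam⟩ : ∃ lam, lam = ψ + e • ψᴴ := ⟨_, rfl⟩
  have hEt : Eᴴ = 1 - ψ * L := by
    have h2 : Eᴴ = e • (ψᴴ * L) := by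
      rw [hE, Matrix.conjTranspose_mul, hLt, Matrix.mul_smul]
    have h3 : ψ * L + e • (ψᴴ * L) = 1 := by rw [← hL2, Matrix.add_mul, Matrix.smul_mul]
    rw [h2, ← h3]; abel
  rw [← hlam] at hL1 hL2
  have hlE : lam * E = ψ := by rw [hE, ← Matrix.mul_assoc, hL2, Matrix.one_mul]
  have hEl : E * L * lam = E := by rw [Matrix.mul_assoc, hL1, Matrix.mul_one]
  refine ⟨Matrix.fromBlocks 1 (E * L) 1 ((E - 1) * L), Matrix.fromBlocks (1 - E) E lam (-lam),
    ?_, ?_, Matrix.fromBlocks 0 0 (e • E) 0, ?_⟩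
  · rw [Matrix.fromBlocks_multiply, ← Matrix.fromBlocks_one]
    congr 1
    · rw [Matrix.one_mul, hEl]; abel
    · rw [Matrix.one_mul, Matrix.mul_neg, hEl]; abel
    · rw [Matrix.one_mul, Matrix.sub_mul, Matrix.sub_mul, Matrix.one_mul, hEl, hL1]; abel
    · rw [Matrix.one_mul, Matrix.mul_neg, Matrix.sub_mul, Matrix.sub_mul, Matrix.one_mul, hEl, hL1]
      abel
  · rw [Matrix.fromBlocks_multiply, ← Matrix.fromBlocks_one]
    congr 1
    · rw [Matrix.mul_one, Matrix.mul_one]; abel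
    · noncomm_ring
    · rw [Matrix.mul_one, Matrix.mul_one]; abel
    · have : lam * (E * L) + -lam * ((E - 1) * L) = lam * L := by noncomm_ring
      rw [this, hL2]
  · have hT : (Matrix.fromBlocks 1 (E * L) 1 ((E - 1) * L) : Matrix (κ ⊕ κ) (κ ⊕ κ) R)ᴴ
        = Matrix.fromBlocks 1 1 (e • (L * (1 - ψ * L))) (e • (L * (1 - ψ * L) - L)) := by
      rw [Matrix.fromBlocks_conjTranspose, Matrix.conjTranspose_mul, Matrix.conjTranspose_mul,
        Matrix.conjTranspose_sub, Matrix.conjTranspose_one, hLt, hEt, Matrix.smul_mul,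
        Matrix.smul_mul]
      congr 2
      noncomm_ring
    rw [hT, Matrix.fromBlocks_multiply, Matrix.fromBlocks_multiply, Matrix.fromBlocks_conjTranspose,
      Matrix.fromBlocks_add, Matrix.fromBlocks_smul, fb_sub, cH_zsmul, smul_smul', hEt]
    congr 1
    · simp
    · simp only [Matrix.mul_zero, add_zero, zero_add, Matrix.one_mul]
      noncomm_ring
    · simp only [Matrix.mul_zero, add_zero, zero_add, Matrix.mul_one, Matrix.conjTranspose_zero,
        smul_zero, sub_zero, Matrix.smul_mul, Matrix.mul_neg]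
      rw [hE, ← smul_neg, ← smul_add]
      congr 1
      noncomm_ring
    · simp only [Matrix.mul_zero, add_zero, zero_add, Matrix.smul_mul, Matrix.mul_neg, Matrix.neg_mul,
        Matrix.conjTranspose_zero, smul_zero, sub_zero]
      rw [← smul_neg, ← smul_add, hE]
      have : L * (1 - ψ * L) * ψ * (L * ψ * L) + -((L * (1 - ψ * L) - L) * ψ * ((L * ψ - 1) * L))
          = 0 := by noncomm_ring
      rw [this, smul_zero]

lemma hyp_cm' : hyp R G κ = cm (1 : G) (Matrix.fromBlocks 0 1 0 0) := by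
  rw [cm_fromBlocks, cm_zero, cm_one]; rfl

theorem glue_exists_R (ε : ℤˣ) (g : G) (ψ : Matrix κ κ R) (hψ : IsUnit (ψ + (ε : ℤ) • ψᴴ)) :
    ∃ u : Isom R G ε κ, IsGlue g ψ u := by
  obtain ⟨L, hL2, hL1⟩ := isUnit_iff_exists.mp hψ
  obtain ⟨p, q, hpq, hqp, η, hη⟩ := canonical ε ψ L hL1 hL2
  let p' : (Matrix (κ ⊕ κ) (κ ⊕ κ) (MonoidAlgebra R G))ˣ :=
    ⟨cm 1 p, cm 1 q, by rw [cm_mul, hpq, one_mul, cm_one], by rw [cm_mul, hqp, one_mul, cm_one]⟩
  have hΔ : ∀ x y : G, gOne R G κ x * gOne R G κ y = gOne R G κ (x * y) := by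
    intro x y
    unfold gOne
    rw [Matrix.fromBlocks_multiply, diag_cm, diag_cm, diag_cm, cm_mul, Matrix.mul_one]
    simp
  have hΔ1 : gOne R G κ 1 = 1 := by
    unfold gOne
    rw [diag_cm, cm_one, Matrix.fromBlocks_one]
  let d' : (Matrix (κ ⊕ κ) (κ ⊕ κ) (MonoidAlgebra R G))ˣ :=
    ⟨gOne R G κ g, gOne R G κ g⁻¹, by rw [hΔ, mul_inv_cancel, hΔ1],
      by rw [hΔ, inv_mul_cancel, hΔ1]⟩
  have hΨ : (Matrix.fromBlocks ψ 0 0 (-ψ)).map (MonoidAlgebra.single (1 : G))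
      = cm 1 (Matrix.fromBlocks ψ 0 0 (-ψ)) := rfl
  have hp : dual p'.val * cm 1 (Matrix.fromBlocks ψ 0 0 (-ψ)) * p'.val
      = hyp R G κ + cm 1 η - (ε : ℤ) • dual (cm 1 η) := by
    change dual (cm 1 p) * cm 1 (Matrix.fromBlocks ψ 0 0 (-ψ)) * cm 1 p = _
    rw [dual_cm, cm_mul, cm_mul, inv_one, one_mul, one_mul, hη, cm_sub, cm_add, cm_zsmul, dual_cm,
      inv_one, hyp_cm']
  have hd : dual d'.val * cm 1 (Matrix.fromBlocks ψ 0 0 (-ψ)) * d'.val
      = cm 1 (Matrix.fromBlocks ψ 0 0 (-ψ)) := by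
    change dual (gOne R G κ g) * cm 1 (Matrix.fromBlocks ψ 0 0 (-ψ)) * gOne R G κ g = _
    unfold gOne
    rw [diag_cm, dual_fromBlocks, dual_cm, dual_zero, dual_one, cm_fromBlocks,
      Matrix.fromBlocks_multiply, Matrix.fromBlocks_multiply]
    simp only [Matrix.zero_mul, Matrix.mul_zero, add_zero, zero_add, Matrix.one_mul,
      cm_zero, cm_mul, Matrix.conjTranspose_one, mul_one, inv_mul_cancel]
  let u : (Matrix (κ ⊕ κ) (κ ⊕ κ) (MonoidAlgebra R G))ˣ := p'⁻¹ * d' * p'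
  have hpu : p'.val * u.val = d'.val * p'.val := by
    rw [← Units.val_mul, ← Units.val_mul, ← mul_assoc, ← mul_assoc, mul_inv_cancel, one_mul]
  have hu : dual u.val * hyp R G κ * u.val
      = hyp R G κ + (cm 1 η - dual u.val * cm 1 η * u.val)
        - (ε : ℤ) • dual (cm 1 η - dual u.val * cm 1 η * u.val) := by
    obtain ⟨Ψ, hΨ'⟩ : ∃ Ψ, cm (1 : G) (Matrix.fromBlocks ψ 0 0 (-ψ)) = Ψ := ⟨_, rfl⟩
    rw [hΨ'] at hp hd
    have e1 : hyp R G κ = dual p'.val * Ψ * p'.val - (cm 1 η - (ε : ℤ) • dual (cm 1 η)) := by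
      rw [hp]; abel
    have e2 : dual u.val * (dual p'.val * Ψ * p'.val) * u.val = dual p'.val * Ψ * p'.val := by
      calc dual u.val * (dual p'.val * Ψ * p'.val) * u.val
          = dual (p'.val * u.val) * Ψ * (p'.val * u.val) := by
            rw [dual_mul]; simp only [Matrix.mul_assoc]
        _ = dual p'.val * (dual d'.val * Ψ * d'.val) * p'.val := by
            rw [hpu, dual_mul]; simp only [Matrix.mul_assoc]
        _ = _ := by rw [hd]
    nth_rw 1 [e1]
    rw [Matrix.mul_sub, Matrix.sub_mul, e2, hp, Matrix.mul_sub, Matrix.sub_mul, Matrix.mul_smul,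
      Matrix.smul_mul, dual_sub, dual_mul, dual_mul, dual_dual, smul_sub]
    simp only [Matrix.mul_assoc]
    abel
  exact ⟨⟨u, _, hu⟩, p', ⟨_, by rw [hΨ]; exact hp⟩, hpu⟩

/-! ### Reduction modulo two -/

/-- `R[G] → (R/2)[G]` -/
noncomputable def red : MonoidAlgebra R G →+* MonoidAlgebra (Mod2 R) G :=
  MonoidAlgebra.mapRingHom G proj2

lemma red_single (g : G) (r : R) :
    red (MonoidAlgebra.single g r) = MonoidAlgebra.single g (proj2 r) :=
  MonoidAlgebra.mapRingHom_single _ _ _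

lemma red_conj (x : MonoidAlgebra R G) : red (conj x) = conj (red x) := by
  induction x using MonoidAlgebra.induction_linear with
  | zero => simp [conj_zero]
  | add x x' hx hx' => rw [conj_add, map_add, map_add, conj_add, hx, hx']
  | single g r => rw [conj_single, red_single, red_single, conj_single, proj2_star]

/-- reduction of matrices -/
noncomputable def redM {α β : Type*} (x : Matrix α β (MonoidAlgebra R G)) :
    Matrix α β (MonoidAlgebra (Mod2 R) G) := x.map red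

lemma redM_dual {α β : Type*} (x : Matrix α β (MonoidAlgebra R G)) :
    redM (dual x) = dual (redM x) := by
  ext1 i j
  exact red_conj _

lemma redM_add {α β : Type*} (x y : Matrix α β (MonoidAlgebra R G)) :
    redM (x + y) = redM x + redM y := by
  ext1 i j
  exact map_add red _ _

lemma redM_zero {α β : Type*} : redM (0 : Matrix α β (MonoidAlgebra R G)) = 0 := by
  ext1 i j
  exact map_zero red

lemma redM_sub {α β : Type*} (x y : Matrix α β (MonoidAlgebra R G)) :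
    redM (x - y) = redM x - redM y := by
  ext1 i j
  exact map_sub red _ _

lemma redM_zsmul {α β : Type*} (c : ℤ) (x : Matrix α β (MonoidAlgebra R G)) :
    redM (c • x) = c • redM x := by
  ext1 i j
  exact map_zsmul red _ _

lemma redM_mul {α β γ : Type*} [Fintype β] (x : Matrix α β (MonoidAlgebra R G))
    (y : Matrix β γ (MonoidAlgebra R G)) : redM (x * y) = redM x * redM y :=
  Matrix.map_mul

lemma redM_one {α : Type*} [DecidableEq α] : redM (1 : Matrix α α (MonoidAlgebra R G)) = 1 :=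
  Matrix.map_one _ (map_zero red) (map_one red)

lemma redM_fromBlocks {α β γ ι : Type*} (a : Matrix α γ (MonoidAlgebra R G))
    (b : Matrix α ι (MonoidAlgebra R G)) (c : Matrix β γ (MonoidAlgebra R G))
    (d : Matrix β ι (MonoidAlgebra R G)) :
    redM (Matrix.fromBlocks a b c d)
      = Matrix.fromBlocks (redM a) (redM b) (redM c) (redM d) :=
  Matrix.fromBlocks_map _ _ _ _ _

lemma redM_hyp : redM (hyp R G κ) = hyp (Mod2 R) G κ := by
  unfold hyp
  rw [redM_fromBlocks, redM_zero, redM_one]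

lemma redM_cm {α β : Type*} (g : G) (c : Matrix α β R) : redM (cm g c) = cm g (c.map proj2) := by
  ext1 i j
  exact red_single _ _

lemma neg_eps {α β : Type*} (ε : ℤˣ) (x : Matrix α β (MonoidAlgebra (Mod2 R) G))
    (y : Matrix α β (MonoidAlgebra (Mod2 R) G)) : x - (ε : ℤ) • y = x + y := by
  have h : ∀ z : Matrix α β (MonoidAlgebra (Mod2 R) G), z + z = 0 := by
    intro z; ext1 i j; exact two_alg _
  have hn : -y = y := neg_eq_of_add_eq_zero_left (h y)
  rcases Int.units_eq_one_or ε with h1 | h1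
  · rw [h1, Units.val_one, one_smul, sub_eq_add_neg, hn]
  · rw [h1, Units.val_neg, Units.val_one, neg_smul, one_smul, sub_neg_eq_add]

/-- reduction of invertible matrices -/
noncomputable def redU (u : (Matrix (κ ⊕ κ) (κ ⊕ κ) (MonoidAlgebra R G))ˣ) :
    (Matrix (κ ⊕ κ) (κ ⊕ κ) (MonoidAlgebra (Mod2 R) G))ˣ :=
  ⟨redM u.val, redM u⁻¹.val, by rw [← redM_mul, Units.mul_inv, redM_one],
    by rw [← redM_mul, Units.inv_mul, redM_one]⟩

lemma redU_val (u : (Matrix (κ ⊕ κ) (κ ⊕ κ) (MonoidAlgebra R G))ˣ) :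
    (redU u).val = redM u.val := rfl

lemma redU_isom {ε : ℤˣ} (u : Isom R G ε κ) :
    ∃ η, dual (redM u.1.val) * hyp (Mod2 R) G κ * redM u.1.val
      = hyp (Mod2 R) G κ + η + dual η := by
  obtain ⟨η, hη⟩ := u.2
  refine ⟨redM η, ?_⟩
  have h := congrArg redM hη
  rw [redM_mul, redM_mul, redM_dual, redM_hyp, redM_sub, redM_add, redM_hyp, redM_zsmul, redM_dual,
    neg_eps] at h
  exact h

variable {δ : G →* Multiplicative (ZMod 2)} {P : Set G}

/-- The invariant as a homomorphism. -/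
noncomputable def eR (ε : ℤˣ) (κ : Type*) [Fintype κ] [DecidableEq κ]
    (hG : ∀ g : G, g * g = 1 → g = 1) (hP : Half δ P) : Isom R G ε κ →* Multiplicative (V R) :=
  MonoidHom.mk' (fun u => Multiplicative.ofAdd ((equivV R).symm (inv1 hG hP (redM u.1.val))))
    (fun u v => by
      rw [← ofAdd_add, ← map_add]
      congr 2
      have h := inv1_mul hG hP (redU u.1) (redU v.1) (redU_isom u) (redU_isom v)
      rw [redU_val, redU_val, ← redM_mul] at h
      exact h)

lemma eR_eq {ε : ℤˣ} (hG : ∀ g : G, g * g = 1 → g = 1) (hP : Half δ P) (u : Isom R G ε κ) (v : V R)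
    (h : inv1 hG hP (redM u.1.val) = equivV R v) :
    eR ε κ hG hP u = Multiplicative.ofAdd v := by
  refine congrArg Multiplicative.ofAdd ?_
  rw [h, AddEquiv.symm_apply_apply]

/-- The Arf invariant of an `ε`-quadratic form over `R`: the class of the trace of
`d ^ 3 + d`, where `d = ψ (ψ + ε ψ^*)⁻¹`. -/
noncomputable def arfR {ι : Type*} [Fintype ι] [DecidableEq ι] (ε : ℤˣ) (ψ : Matrix ι ι R) : V R :=
  cls (ψ * Ring.inverse (ψ + (ε : ℤ) • ψᴴ) * (ψ * Ring.inverse (ψ + (ε : ℤ) • ψᴴ))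
    * (ψ * Ring.inverse (ψ + (ε : ℤ) • ψᴴ)) + ψ * Ring.inverse (ψ + (ε : ℤ) • ψᴴ)).trace

lemma arfR_eq {ε : ℤˣ} {ψ L : Matrix κ κ R} (hL1 : L * (ψ + (ε : ℤ) • ψᴴ) = 1)
    (hL2 : (ψ + (ε : ℤ) • ψᴴ) * L = 1) :
    arfR ε ψ = cls (ψ * L * (ψ * L) * (ψ * L) + ψ * L).trace := by
  have h : Ring.inverse (ψ + (ε : ℤ) • ψᴴ) = L := by
    let w : (Matrix κ κ R)ˣ := ⟨ψ + (ε : ℤ) • ψᴴ, L, hL2, hL1⟩
    exact Ring.inverse_unit w
  rw [arfR, h]

lemma map_conjTranspose {α β : Type*} (x : Matrix α β R) :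
    xᴴ.map (proj2 (R := R)) = (x.map (proj2 (R := R)))ᴴ := by
  ext1 i j
  rfl

lemma map_zsmul' {α β : Type*} (c : ℤ) (x : Matrix α β R) :
    (c • x).map (proj2 (R := R)) = c • x.map (proj2 (R := R)) := by
  ext1 i j
  exact map_zsmul proj2 _ _

lemma eps_smul {α β : Type*} (ε : ℤˣ) (x : Matrix α β (Mod2 R)) : (ε : ℤ) • x = x := by
  have hn : -x = x := neg_eq_of_add_eq_zero_left (twoK x)
  rcases Int.units_eq_one_or ε with h1 | h1
  · rw [h1, Units.val_one, one_smul]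
  · rw [h1, Units.val_neg, Units.val_one, neg_smul, one_smul, hn]

/-- The value of the invariant at `g ⊗ ψ`. -/
theorem eR_glue {ε : ℤˣ} (hG : ∀ g : G, g * g = 1 → g = 1) (hP : Half δ P) (g : G)
    (ψ : Matrix κ κ R) (hψ : IsUnit (ψ + (ε : ℤ) • ψᴴ)) (u : Isom R G ε κ) (hu : IsGlue g ψ u) :
    eR ε κ hG hP u = if δ g = 1 then 1 else Multiplicative.ofAdd (arfR ε ψ) := by
  obtain ⟨L, hL2, hL1⟩ := isUnit_iff_exists.mp hψ
  obtain ⟨p, ⟨η, hη⟩, hpu⟩ := hu
  -- reduction of the form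
  obtain ⟨f, hf⟩ : ∃ f : R →+* Mod2 R, f = proj2 := ⟨_, rfl⟩
  have hlam : (ψ + (ε : ℤ) • ψᴴ).map f = ψ.map f + (ψ.map f)ᴴ := by
    rw [hf, Matrix.map_add _ (map_add _), map_zsmul', map_conjTranspose, eps_smul]
  have h1 : L.map f * (ψ.map f + (ψ.map f)ᴴ) = 1 := by
    rw [← hlam, ← Matrix.map_mul, hL1, Matrix.map_one _ (map_zero _) (map_one _)]
  have h2 : (ψ.map f + (ψ.map f)ᴴ) * L.map f = 1 := by
    rw [← hlam, ← Matrix.map_mul, hL2, Matrix.map_one _ (map_zero _) (map_one _)]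
  have hneg : (Matrix.fromBlocks ψ 0 0 (-ψ)).map f = Matrix.fromBlocks (ψ.map f) 0 0 (ψ.map f) := by
    rw [Matrix.fromBlocks_map, Matrix.map_zero _ (map_zero f)]
    congr 1
    · have hn : -(ψ.map f) = ψ.map f := neg_eq_of_add_eq_zero_left (twoK _)
      rw [← hn]
      ext1 i j
      simp
  have hglue : IsGlue2 g (ψ.map f) (redU u.1).val := by
    refine ⟨redU p, ⟨redM η, ?_⟩, ?_⟩
    · have h := congrArg redM hη
      change redM (dual p.val * cm 1 (Matrix.fromBlocks ψ 0 0 (-ψ)) * p.val) = _ at h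
      rw [redM_mul, redM_mul, redM_dual, redM_cm, redM_sub, redM_add, redM_hyp, redM_zsmul,
        redM_dual, neg_eps, ← hf, hneg] at h
      exact h
    · have h := congrArg redM hpu
      rw [redM_mul, redM_mul] at h
      have h3 : redM (Matrix.fromBlocks (Matrix.diagonal fun _ => MonoidAlgebra.single g 1) 0 0 1
          : Matrix (κ ⊕ κ) (κ ⊕ κ) (MonoidAlgebra R G)) = gOne (Mod2 R) G κ g := by
        unfold gOne
        rw [redM_fromBlocks, redM_zero, redM_one, diag_cm, diag_cm, redM_cm,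
          Matrix.map_one _ (map_zero _) (map_one _)]
      rw [h3] at h
      exact h
  have hval := inv1_glue hG hP g (ψ.map f) (L.map f) h1 h2 (redU u.1) (redU_isom u) hglue
  have harf : equivV R (arfR ε ψ) = cls (ψ.map f * L.map f * (ψ.map f * L.map f)
      * (ψ.map f * L.map f) + ψ.map f * L.map f).trace := by
    rw [arfR_eq hL1 hL2, equivV_cls, ← hf]
    congr 1
    rw [← Matrix.map_mul, ← Matrix.map_mul, ← Matrix.map_mul, ← Matrix.map_add _ (map_add _)]
    exact AddMonoidHom.map_trace f.toAddMonoidHom _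
  by_cases hg : δ g = 1
  · rw [if_pos hg] at hval ⊢
    have h0 : (1 : Multiplicative (V R)) = Multiplicative.ofAdd 0 := rfl
    rw [h0]
    exact eR_eq hG hP u 0 (by rw [map_zero]; exact hval)
  · rw [if_neg hg] at hval ⊢
    exact eR_eq hG hP u _ (by rw [harf]; exact hval)

end Pool.Agent.Lib.MP8a3537.D1R
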