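import Pool.Agent.Lib.MP_8a3537_gt.D1R.Glue2

/-!
# Stabilization
-/

namespace Pool.Agent.Lib.MP8a3537.D1R

open Matrix MonoidAlgebra
open Pool.Agent.Lib.MP8a3537.D1 (Half odd odd_inv mul_zmod Sys)

set_option linter.unusedSectionVars false

variable {S G : Type*} [Ring S] [StarRing S] [Group G]
variable {κ : Type*} [Fintype κ] [DecidableEq κ]

/-- The matrix `x` on the first summand of `(A^κ ⊕ A^μ) ⊕ (A^κ ⊕ A^μ)`, and `s` on the rest. -/
noncomputable def stabM (μ : Type*) [DecidableEq μ]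
    (s : Matrix μ μ (MonoidAlgebra S G)) (x : Matrix (κ ⊕ κ) (κ ⊕ κ) (MonoidAlgebra S G)) :
    Matrix ((κ ⊕ μ) ⊕ (κ ⊕ μ)) ((κ ⊕ μ) ⊕ (κ ⊕ μ)) (MonoidAlgebra S G) :=
  Matrix.fromBlocks (Matrix.fromBlocks x.toBlocks₁₁ 0 0 s) (Matrix.fromBlocks x.toBlocks₁₂ 0 0 0)
    (Matrix.fromBlocks x.toBlocks₂₁ 0 0 0) (Matrix.fromBlocks x.toBlocks₂₂ 0 0 s)

variable {μ : Type*} [Fintype μ] [DecidableEq μ]

lemma stabM_fromBlocks (s : Matrix μ μ (MonoidAlgebra S G))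
    (a b c d : Matrix κ κ (MonoidAlgebra S G)) :
    stabM μ s (Matrix.fromBlocks a b c d)
      = Matrix.fromBlocks (Matrix.fromBlocks a 0 0 s) (Matrix.fromBlocks b 0 0 0)
        (Matrix.fromBlocks c 0 0 0) (Matrix.fromBlocks d 0 0 s) := by
  unfold stabM
  rw [Matrix.toBlocks_fromBlocks₁₁, Matrix.toBlocks_fromBlocks₁₂, Matrix.toBlocks_fromBlocks₂₁,
    Matrix.toBlocks_fromBlocks₂₂]

lemma stabM_mul (s t : Matrix μ μ (MonoidAlgebra S G))
    (x y : Matrix (κ ⊕ κ) (κ ⊕ κ) (MonoidAlgebra S G)) :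
    stabM μ s x * stabM μ t y = stabM μ (s * t) (x * y) := by
  obtain ⟨a, b, c, d, rfl⟩ := fromBlocks_toBlocks' x
  obtain ⟨a', b', c', d', rfl⟩ := fromBlocks_toBlocks' y
  simp only [stabM_fromBlocks, Matrix.fromBlocks_multiply, Matrix.fromBlocks_add, Matrix.mul_zero,
    Matrix.zero_mul, add_zero, zero_add]

lemma stabM_one : stabM μ (1 : Matrix μ μ (MonoidAlgebra S G)) (1 : Matrix (κ ⊕ κ) (κ ⊕ κ) _) = 1 := by
  rw [← Matrix.fromBlocks_one, stabM_fromBlocks, Matrix.fromBlocks_one, Matrix.fromBlocks_zero,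
    Matrix.fromBlocks_one]

lemma stabM_hyp : stabM μ (0 : Matrix μ μ (MonoidAlgebra S G)) (hyp S G κ)
    + Matrix.fromBlocks 0 (Matrix.fromBlocks 0 0 0 1) 0 0 = hyp S G (κ ⊕ μ) := by
  unfold hyp
  rw [stabM_fromBlocks, Matrix.fromBlocks_add, Matrix.fromBlocks_add, Matrix.fromBlocks_zero]
  simp [Matrix.fromBlocks_one]

lemma stabM_rel {x η : Matrix (κ ⊕ κ) (κ ⊕ κ) (MonoidAlgebra S G)}
    (h : dual x * hyp S G κ * x = hyp S G κ + η + dual η) :
    dual (stabM μ 1 x) * hyp S G (κ ⊕ μ) * stabM μ 1 x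
      = hyp S G (κ ⊕ μ) + stabM μ 0 η + dual (stabM μ 0 η) := by
  obtain ⟨a, b, c, d, rfl⟩ := fromBlocks_toBlocks' x
  obtain ⟨a', b', c', d', rfl⟩ := fromBlocks_toBlocks' η
  have hf : ∀ (ν : Type _) [Fintype ν] [DecidableEq ν] (a b c d : Matrix ν ν (MonoidAlgebra S G)),
      dual (Matrix.fromBlocks a b c d) * hyp S G ν * Matrix.fromBlocks a b c d
      = Matrix.fromBlocks (dual a * c) (dual a * d) (dual b * c) (dual b * d) := by
    intro ν _ _ a b c d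
    unfold hyp
    rw [dual_fromBlocks, Matrix.fromBlocks_multiply, Matrix.fromBlocks_multiply]
    simp
  rw [hf, dual_fromBlocks, hyp, Matrix.fromBlocks_add, Matrix.fromBlocks_add,
    Matrix.fromBlocks_inj] at h
  obtain ⟨h1, h2, h3, h4⟩ := h
  have h1' : (1 : Matrix (κ ⊕ μ) (κ ⊕ μ) (MonoidAlgebra S G)) = Matrix.fromBlocks 1 0 0 1 :=
    Matrix.fromBlocks_one.symm
  rw [stabM_fromBlocks, stabM_fromBlocks]
  have hf2 : dual (Matrix.fromBlocks (Matrix.fromBlocks a 0 0 1) (Matrix.fromBlocks b 0 0 0)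
        (Matrix.fromBlocks c 0 0 0) (Matrix.fromBlocks d 0 0 (1 : Matrix μ μ (MonoidAlgebra S G))))
        * hyp S G (κ ⊕ μ) * Matrix.fromBlocks (Matrix.fromBlocks a 0 0 1)
          (Matrix.fromBlocks b 0 0 0) (Matrix.fromBlocks c 0 0 0) (Matrix.fromBlocks d 0 0 1)
      = Matrix.fromBlocks (dual (Matrix.fromBlocks a 0 0 1) * Matrix.fromBlocks c 0 0 0)
        (dual (Matrix.fromBlocks a 0 0 1) * Matrix.fromBlocks d 0 0 1)
        (dual (Matrix.fromBlocks b 0 0 0) * Matrix.fromBlocks c 0 0 0)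
        (dual (Matrix.fromBlocks b 0 0 0) * Matrix.fromBlocks d 0 0 1) := by
    unfold hyp
    rw [dual_fromBlocks (Matrix.fromBlocks a 0 0 1), Matrix.fromBlocks_multiply,
      Matrix.fromBlocks_multiply]
    simp only [Matrix.mul_zero, Matrix.zero_mul, add_zero, zero_add, Matrix.mul_one]
  rw [hf2, hyp, h1']
  simp only [dual_fromBlocks, dual_zero, dual_one, Matrix.fromBlocks_multiply,
    Matrix.fromBlocks_add, Matrix.mul_zero, Matrix.zero_mul, add_zero, zero_add, Matrix.mul_one]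
  rw [h1, h2, h3, h4]
  simp [Matrix.fromBlocks_add, ← Matrix.fromBlocks_zero]

section Char2

variable [Two S] {δ : G →* Multiplicative (ZMod 2)} {P : Set G}

lemma kappa_stab (hG : ∀ g : G, g * g = 1 → g = 1) (hP : Half δ P)
    (N : Matrix (κ ⊕ κ) (κ ⊕ κ) (MonoidAlgebra S G)) :
    (sys (κ ⊕ μ) hG hP).kappa (stabM μ 0 N) = (sys κ hG hP).kappa N := by
  obtain ⟨a, b, c, d, rfl⟩ := fromBlocks_toBlocks' N
  rw [kappa_def, kappa_def, stabM_fromBlocks, dgm_fromBlocks, dgm_fromBlocks, Em_fromBlocks,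
    Em_fromBlocks, Qm, Qm, Rm_fromBlocks, Rm_fromBlocks, Dm_fromBlocks, Dm_fromBlocks]
  simp only [Rm_fromBlocks, Dm_fromBlocks, map_zero, dual_fromBlocks, dual_zero,
    Matrix.fromBlocks_multiply, trace_blocks, Matrix.fromBlocks_add, Matrix.mul_zero,
    Matrix.zero_mul, add_zero, zero_add, Matrix.trace_zero]

lemma inv1_stab (hG : ∀ g : G, g * g = 1 → g = 1) (hP : Half δ P)
    {x : Matrix (κ ⊕ κ) (κ ⊕ κ) (MonoidAlgebra S G)}
    (h : ∃ η, dual x * hyp S G κ * x = hyp S G κ + η + dual η) :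
    inv1 hG hP (stabM μ 1 x) = inv1 hG hP x := by
  obtain ⟨η, hη⟩ := h
  have hJ : Jm S G (κ ⊕ μ) * stabM μ 0 η = stabM μ 0 (Jm S G κ * η) := by
    obtain ⟨a, b, c, d, rfl⟩ := fromBlocks_toBlocks' η
    rw [stabM_fromBlocks, Jm_fromBlocks, Jm_fromBlocks, stabM_fromBlocks]
  rw [inv1_eq hG hP hη, inv1_eq hG hP (stabM_rel hη), hJ, kappa_stab]

end Char2

end Pool.Agent.Lib.MP8a3537.D1R
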