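import Pool.Agent.Lib.MP_8a3537_gt.D1R.Red

/-!
# Symplectic bases and the Arf invariant
-/

namespace Pool.Agent.Lib.MP8a3537.D1R

open Matrix MonoidAlgebra

set_option linter.unusedSectionVars false

/-! ### Definitions -/

section Defs

variable {R : Type*} [Ring R] [StarRing R] {κ : Type*} [Fintype κ] [DecidableEq κ]

/-- The matrix with the columns `e_i` and `f_i`. -/
def cols {m : ℕ} (e f : Fin m → κ → R) : Matrix κ (Fin m ⊕ Fin m) R :=
  Matrix.of fun k s => Sum.elim (fun i => e i k) (fun i => f i k) s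

/-- `e, f` is a basis of `R^κ` which is symplectic for the form `λ = ψ + ε ψ^*`:
`λ(e_i, e_j) = λ(f_i, f_j) = 0` and `λ(e_i, f_j)` is `1` if `i = j`, else `0`. -/
structure IsSymplectic (ε : ℤˣ) (ψ : Matrix κ κ R) {m : ℕ} (e f : Fin m → κ → R) : Prop where
  basis : ∃ Q : Matrix (Fin m ⊕ Fin m) κ R, cols e f * Q = 1 ∧ Q * cols e f = 1
  ee : ∀ i j, star (e i) ⬝ᵥ ((ψ + (ε : ℤ) • ψᴴ) *ᵥ e j) = 0
  ff : ∀ i j, star (f i) ⬝ᵥ ((ψ + (ε : ℤ) • ψᴴ) *ᵥ f j) = 0
  ef : ∀ i j, star (e i) ⬝ᵥ ((ψ + (ε : ℤ) • ψᴴ) *ᵥ f j) = if i = j then 1 else 0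

/-- The class of `∑ q(e_i) q(f_i)` in `V(R)`, where `q(v) = v^* ψ v`. -/
def arfBasis (ψ : Matrix κ κ R) {m : ℕ} (e f : Fin m → κ → R) : V R :=
  ∑ i, cls ((star (e i) ⬝ᵥ (ψ *ᵥ e i)) * (star (f i) ⬝ᵥ (ψ *ᵥ f i)))

end Defs

/-! ### Characteristic two -/

lemma sum_symm {ι M : Type*} [Fintype ι] [AddCommGroup M] (hM : ∀ x : M, x + x = 0)
    (f : ι → ι → M) (hf : ∀ i j, f i j = f j i) : ∑ i, ∑ j, f i j = ∑ i, f i i := by
  classical
  have h1 : ∑ i, ∑ j, f i j = ∑ p : ι × ι, f p.1 p.2 := by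
    rw [← Finset.univ_product_univ, Finset.sum_product]
  have h2 : ∑ p : ι × ι, f p.1 p.2 = ∑ p : ι × ι, (if p.1 = p.2 then f p.1 p.2 else 0)
      + ∑ p : ι × ι, (if p.1 = p.2 then 0 else f p.1 p.2) := by
    rw [← Finset.sum_add_distrib]
    refine Finset.sum_congr rfl (fun p _ => ?_)
    split_ifs <;> simp
  have h3 : ∑ p : ι × ι, (if p.1 = p.2 then 0 else f p.1 p.2) = 0 := by
    refine Finset.sum_involution (fun p _ => (p.2, p.1)) ?_ ?_ ?_ ?_
    · rintro ⟨i, j⟩ _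
      by_cases h : i = j
      · simp [h]
      · have h' : ¬ j = i := fun e => h e.symm
        simp only [if_neg h, if_neg h']
        rw [hf i j]; exact hM _
    · rintro ⟨i, j⟩ _ hne h
      simp only [Prod.mk.injEq] at h
      apply hne
      simp [h.2]
    · intro a _; exact Finset.mem_univ _
    · rintro ⟨i, j⟩ _; rfl
  rw [h1, h2, h3, add_zero, ← Finset.univ_product_univ, Finset.sum_product]
  refine Finset.sum_congr rfl (fun i _ => ?_)
  simp

variable {S : Type*} [Ring S] [StarRing S]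
variable {κ μ : Type*} [Fintype κ] [DecidableEq κ] [Fintype μ] [DecidableEq μ]

lemma ct_star (x : Matrix μ μ S) : cls (xᴴ).trace = cls x.trace := by
  rw [Matrix.trace_conjTranspose, cls_star]

lemma trace_mul_symm {a d : Matrix μ μ S} (ha : aᴴ = a) (hd : dᴴ = d) :
    cls (a * d).trace = ∑ i, cls (a i i * d i i) := by
  simp only [Matrix.trace, Matrix.diag_apply, Matrix.mul_apply, map_sum]
  refine sum_symm two_V (fun i j => cls (a i j * d j i)) (fun i j => ?_)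
  have h1 : a j i = star (a i j) := by
    conv_lhs => rw [← ha]
    rfl
  have h2 : d i j = star (d j i) := by
    conv_lhs => rw [← hd]
    rfl
  rw [h1, h2, ← star_mul, cls_star, cls_comm]

lemma trace_sq (c : Matrix μ μ S) : cls (c * c).trace = cls c.trace := by
  simp only [Matrix.trace, Matrix.diag_apply, Matrix.mul_apply, map_sum]
  rw [sum_symm two_V (fun i j => cls (c i j * c j i)) (fun i j => cls_comm _ _)]
  exact Finset.sum_congr rfl (fun i _ => cls_sq _)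

section Two

variable [Two S]

theorem arf_cubic (N : Matrix (μ ⊕ μ) (μ ⊕ μ) S) (hN : N + Nᴴ = Matrix.fromBlocks 0 1 1 0) :
    cls (Matrix.fromBlocks 0 1 1 0 * N * (Matrix.fromBlocks 0 1 1 0 * N)
        * (Matrix.fromBlocks 0 1 1 0 * N) + Matrix.fromBlocks 0 1 1 0 * N).trace
      = ∑ i, cls (N (Sum.inl i) (Sum.inl i) * N (Sum.inr i) (Sum.inr i)) := by
  obtain ⟨a, b, c, d, rfl⟩ : ∃ a b c d, N = Matrix.fromBlocks a b c d :=
    ⟨_, _, _, _, (Matrix.fromBlocks_toBlocks N).symm⟩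
  rw [Matrix.fromBlocks_conjTranspose, Matrix.fromBlocks_add, Matrix.fromBlocks_inj] at hN
  obtain ⟨h1, h2, -, h4⟩ := hN
  have hsym : ∀ x : Matrix μ μ S, x + xᴴ = 0 → xᴴ = x := by
    intro x hx
    have h := twoK x
    exact add_left_cancel (hx.trans h.symm)
  have ha : aᴴ = a := hsym a h1
  have hd : dᴴ = d := hsym d h4
  have hb : b = 1 + cᴴ := by
    rw [← h2, add_assoc, twoK, add_zero]
  rw [Matrix.fromBlocks_multiply, Matrix.fromBlocks_multiply, Matrix.fromBlocks_multiply,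
    Matrix.fromBlocks_add, trace_blocks]
  simp only [Matrix.zero_mul, Matrix.one_mul, zero_add, add_zero, Matrix.fromBlocks_apply₁₁,
    Matrix.fromBlocks_apply₂₂]
  rw [← trace_mul_symm ha hd]
  have t1 : ∀ x y z : Matrix μ μ S, cls (x * y * z).trace = cls (y * z * x).trace := by
    intro x y z; rw [Matrix.mul_assoc, tc]
  have hbad : cls (b * a * d).trace = cls (a * d).trace + cls (a * c * d).trace := by
    rw [hb, Matrix.add_mul, Matrix.one_mul, Matrix.add_mul, Matrix.trace_add, map_add]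
    congr 1
    rw [← ct_star, Matrix.conjTranspose_mul, Matrix.conjTranspose_mul,
      Matrix.conjTranspose_conjTranspose, ha, hd, ← Matrix.mul_assoc, t1]
  have hbt : cls b.trace = cls (Fintype.card μ : S) + cls c.trace := by
    rw [hb, Matrix.trace_add, Matrix.trace_one, map_add, ct_star]
  have hbb : cls (b * b * b).trace = cls (Fintype.card μ : S) + cls (c * c * c).trace := by
    have e : b * b * b = 1 + cᴴ + cᴴ * cᴴ + cᴴ * cᴴ * cᴴ + (cᴴ + cᴴ) + (cᴴ * cᴴ + cᴴ * cᴴ) := by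
      rw [hb]; noncomm_ring
    rw [e, twoK, twoK, add_zero, add_zero, Matrix.trace_add, Matrix.trace_add, Matrix.trace_add,
      Matrix.trace_one, map_add, map_add, map_add, ct_star, ← Matrix.conjTranspose_mul, ct_star,
      ← Matrix.conjTranspose_mul, ct_star, trace_sq, Matrix.mul_assoc]
    have h := two_V (cls c.trace)
    calc _ = cls (Fintype.card μ : S) + (cls c.trace + cls c.trace)
          + cls (c * (c * c)).trace := by abel
      _ = _ := by rw [h, add_zero]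
  simp only [Matrix.add_mul, Matrix.trace_add, map_add]
  have r1 : cls (c * d * a).trace = cls (a * c * d).trace := (t1 _ _ _).symm
  have r2 : cls (d * a * c).trace = cls (a * c * d).trace := t1 _ _ _
  have r3 : cls (d * b * a).trace = cls (b * a * d).trace := t1 _ _ _
  have r4 : cls (a * d * b).trace = cls (b * a * d).trace := (t1 _ _ _).symm
  rw [r1, r2, r3, r4, hbad, hbb, hbt]
  obtain ⟨x, hx⟩ : ∃ x, cls (a * d).trace = x := ⟨_, rfl⟩
  obtain ⟨y, hy⟩ : ∃ y, cls (a * c * d).trace = y := ⟨_, rfl⟩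
  obtain ⟨z, hz⟩ : ∃ z, cls (c * c * c).trace = z := ⟨_, rfl⟩
  obtain ⟨w, hw⟩ : ∃ w, cls c.trace = w := ⟨_, rfl⟩
  obtain ⟨n, hn⟩ : ∃ n, cls (Fintype.card μ : S) = n := ⟨_, rfl⟩
  rw [hx, hy, hz, hw, hn]
  have hx2 := two_V x
  have hy2 := two_V y
  have hz2 := two_V z
  have hw2 := two_V w
  have hn2 := two_V n
  calc _ = x + (x + x) + (y + y) + (y + y) + (y + y) + (z + z) + (w + w) + (n + n) := by abel
    _ = x := by rw [hx2, hy2, hz2, hw2, hn2]; simp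

/-- In characteristic two, the trace formula for a symplectic basis. -/
theorem arf_two {ι : Type*} [Fintype ι] [DecidableEq ι] (ψ L : Matrix κ κ S)
    (hL1 : L * (ψ + ψᴴ) = 1) (hL2 : (ψ + ψᴴ) * L = 1)
    (P : Matrix κ (ι ⊕ ι) S) (Q : Matrix (ι ⊕ ι) κ S) (hPQ : P * Q = 1) (hQP : Q * P = 1)
    (hh : Pᴴ * (ψ + ψᴴ) * P = Matrix.fromBlocks 0 1 1 0) :
    cls (ψ * L * (ψ * L) * (ψ * L) + ψ * L).trace
      = ∑ i, cls ((Pᴴ * ψ * P) (Sum.inl i) (Sum.inl i) * (Pᴴ * ψ * P) (Sum.inr i) (Sum.inr i)) := by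
  obtain ⟨H, hH⟩ : ∃ H : Matrix (ι ⊕ ι) (ι ⊕ ι) S, H = Matrix.fromBlocks 0 1 1 0 := ⟨_, rfl⟩
  have hHH : H * H = 1 := by
    rw [hH, Matrix.fromBlocks_multiply]; simp [Matrix.fromBlocks_one]
  rw [← hH] at hh
  have hQ : Q = H * Pᴴ * (ψ + ψᴴ) := by
    calc Q = H * H * Q := by rw [hHH, Matrix.one_mul]
      _ = H * (Pᴴ * (ψ + ψᴴ) * P) * Q := by rw [hh]
      _ = H * Pᴴ * (ψ + ψᴴ) * (P * Q) := by simp only [Matrix.mul_assoc]
      _ = _ := by rw [hPQ, Matrix.mul_one]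
  have hN : Pᴴ * ψ * P + (Pᴴ * ψ * P)ᴴ = Matrix.fromBlocks 0 1 1 0 := by
    rw [← hH, ← hh]
    simp only [Matrix.conjTranspose_mul, Matrix.conjTranspose_conjTranspose, Matrix.mul_add,
      Matrix.add_mul, Matrix.mul_assoc]
  rw [← arf_cubic (Pᴴ * ψ * P) hN, ← hH]
  have hX : H * (Pᴴ * ψ * P) = Q * (L * ψ) * P := by
    rw [hQ]
    calc H * (Pᴴ * ψ * P) = H * Pᴴ * (((ψ + ψᴴ) * L) * ψ) * P := by
          rw [hL2, Matrix.one_mul]; simp only [Matrix.mul_assoc]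
      _ = _ := by simp only [Matrix.mul_assoc]
  have hX3 : H * (Pᴴ * ψ * P) * (H * (Pᴴ * ψ * P)) * (H * (Pᴴ * ψ * P)) + H * (Pᴴ * ψ * P)
      = Q * (L * ψ * (L * ψ) * (L * ψ) + L * ψ) * P := by
    rw [hX]
    have : Q * (L * ψ) * P * (Q * (L * ψ) * P) * (Q * (L * ψ) * P)
        = Q * (L * ψ) * (P * Q) * (L * ψ) * (P * Q) * (L * ψ) * P := by
      simp only [Matrix.mul_assoc]
    rw [this, hPQ, Matrix.mul_one, Matrix.mul_one]
    simp only [Matrix.mul_add, Matrix.add_mul, Matrix.mul_assoc]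
  rw [hX3, tc, ← Matrix.mul_assoc P Q, hPQ, Matrix.one_mul, Matrix.trace_add, Matrix.trace_add, map_add,
    map_add, tc L ψ]
  congr 1
  have : L * ψ * (L * ψ) * (L * ψ) = L * (ψ * (L * ψ) * (L * ψ)) := by
    simp only [Matrix.mul_assoc]
  rw [this, tc L]
  simp only [Matrix.mul_assoc]

end Two

/-! ### Every ring -/

variable {R : Type*} [Ring R] [StarRing R]

lemma cols_mul {m : ℕ} (M : Matrix κ κ R) (e f : Fin m → κ → R) :
    (cols e f)ᴴ * M * cols e f = Matrix.fromBlocks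
      (Matrix.of fun i j => star (e i) ⬝ᵥ (M *ᵥ e j))
      (Matrix.of fun i j => star (e i) ⬝ᵥ (M *ᵥ f j))
      (Matrix.of fun i j => star (f i) ⬝ᵥ (M *ᵥ e j))
      (Matrix.of fun i j => star (f i) ⬝ᵥ (M *ᵥ f j)) := by
  ext1 s t
  rw [Matrix.mul_assoc, Matrix.mul_apply]
  rcases s with s | s <;> rcases t with t | t <;> rfl

lemma map_cT {α β : Type*} (x : Matrix α β R) :
    xᴴ.map (proj2 (R := R)) = (x.map (proj2 (R := R)))ᴴ := by
  ext1 i j
  rfl

/-- For a symplectic basis the Arf invariant is the class of `∑ q(e_i) q(f_i)`. -/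
theorem arfR_basis {ε : ℤˣ} (ψ : Matrix κ κ R) {m : ℕ} (e f : Fin m → κ → R)
    (hs : IsSymplectic ε ψ e f) : arfR ε ψ = arfBasis ψ e f := by
  obtain ⟨Q, hPQ, hQP⟩ := hs.basis
  obtain ⟨P, hP⟩ : ∃ P, cols e f = P := ⟨_, rfl⟩
  obtain ⟨lam, hlam⟩ : ∃ lam, lam = ψ + (ε : ℤ) • ψᴴ := ⟨_, rfl⟩
  have hcT : lamᴴ = (ε : ℤ) • lam := by
    rw [hlam, Matrix.conjTranspose_add, cH_zsmul, Matrix.conjTranspose_conjTranspose, smul_add,
      smul_smul, eps_sq, one_smul, add_comm]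
  have hfe : ∀ i j, star (f i) ⬝ᵥ (lam *ᵥ e j) = if i = j then ((ε : ℤ) • (1 : R)) else 0 := by
    intro i j
    have h1 : star (star (e j) ⬝ᵥ (lam *ᵥ f i)) = star (f i) ⬝ᵥ (lamᴴ *ᵥ e j) := by
      rw [← Matrix.star_dotProduct_star, star_star, Matrix.star_mulVec, Matrix.dotProduct_mulVec]
    rw [hcT, Matrix.smul_mulVec, dotProduct_smul] at h1
    have h2 : star (f i) ⬝ᵥ (lam *ᵥ e j) = (ε : ℤ) • star (star (e j) ⬝ᵥ (lam *ᵥ f i)) := by
      rw [h1, smul_smul, eps_sq, one_smul]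
    rw [h2, hlam, hs.ef]
    by_cases h : i = j
    · rw [if_pos h, if_pos h.symm, star_one]
    · rw [if_neg h, if_neg (Ne.symm h), star_zero, smul_zero]
  have hh : Pᴴ * lam * P = Matrix.fromBlocks 0 1 ((ε : ℤ) • 1) 0 := by
    rw [← hP, cols_mul]
    congr 1
    · ext1 i j; rw [hlam]; exact hs.ee i j
    · ext1 i j
      rw [Matrix.of_apply, hlam, hs.ef, Matrix.one_apply]
    · ext1 i j
      rw [Matrix.of_apply, hfe, Matrix.smul_apply, Matrix.one_apply]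
      split_ifs
      · rfl
      · rw [smul_zero]
    · ext1 i j; rw [hlam]; exact hs.ff i j
  rw [hP] at hPQ hQP
  -- the inverse of `lam`
  have hHi : (Matrix.fromBlocks 0 1 ((ε : ℤ) • 1) 0 : Matrix (Fin m ⊕ Fin m) (Fin m ⊕ Fin m) R)
      * Matrix.fromBlocks 0 ((ε : ℤ) • 1) 1 0 = 1 := by
    rw [Matrix.fromBlocks_multiply]
    simp only [Matrix.zero_mul, Matrix.mul_zero, Matrix.mul_one, zero_add, add_zero,
      Matrix.smul_mul, Matrix.one_mul, smul_smul, eps_sq, one_smul, Matrix.fromBlocks_one]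
  have hHi' : (Matrix.fromBlocks 0 ((ε : ℤ) • 1) 1 0 : Matrix (Fin m ⊕ Fin m) (Fin m ⊕ Fin m) R)
      * Matrix.fromBlocks 0 1 ((ε : ℤ) • 1) 0 = 1 := by
    rw [Matrix.fromBlocks_multiply]
    simp only [Matrix.zero_mul, Matrix.mul_zero, Matrix.mul_one, zero_add, add_zero,
      Matrix.smul_mul, smul_smul, eps_sq, one_smul, Matrix.one_mul, Matrix.fromBlocks_one]
  obtain ⟨H, hH⟩ : ∃ H : Matrix (Fin m ⊕ Fin m) (Fin m ⊕ Fin m) R,
      Matrix.fromBlocks 0 1 ((ε : ℤ) • 1) 0 = H := ⟨_, rfl⟩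
  obtain ⟨H', hH'⟩ : ∃ H' : Matrix (Fin m ⊕ Fin m) (Fin m ⊕ Fin m) R,
      Matrix.fromBlocks 0 ((ε : ℤ) • 1) 1 0 = H' := ⟨_, rfl⟩
  have hHr := hH
  rw [hH, hH'] at hHi hHi'
  rw [hH] at hh
  have hPQt : Qᴴ * Pᴴ = 1 := by
    rw [← Matrix.conjTranspose_mul, hPQ, Matrix.conjTranspose_one]
  have hlamQ : lam = Qᴴ * H * Q := by
    rw [← hh]
    calc lam = (Qᴴ * Pᴴ) * lam * (P * Q) := by rw [hPQt, hPQ, Matrix.one_mul, Matrix.mul_one]
      _ = _ := by simp only [Matrix.mul_assoc]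
  obtain ⟨L, hL⟩ : ∃ L, L = P * H' * Pᴴ := ⟨_, rfl⟩
  have hQPt : Pᴴ * Qᴴ = 1 := by
    rw [← Matrix.conjTranspose_mul, hQP, Matrix.conjTranspose_one]
  have hL1 : L * lam = 1 := by
    rw [hL, hlamQ]
    calc P * H' * Pᴴ * (Qᴴ * H * Q) = P * H' * (Pᴴ * Qᴴ) * H * Q := by
          simp only [Matrix.mul_assoc]
      _ = P * (H' * H) * Q := by rw [hQPt, Matrix.mul_one, Matrix.mul_assoc P]
      _ = 1 := by rw [hHi', Matrix.mul_one, hPQ]
  have hL2 : lam * L = 1 := by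
    rw [hL, hlamQ]
    calc Qᴴ * H * Q * (P * H' * Pᴴ) = Qᴴ * H * (Q * P) * H' * Pᴴ := by
          simp only [Matrix.mul_assoc]
      _ = Qᴴ * (H * H') * Pᴴ := by rw [hQP, Matrix.mul_one, Matrix.mul_assoc Qᴴ]
      _ = 1 := by rw [hHi, Matrix.mul_one, hPQt]
  rw [hlam] at hL1 hL2
  rw [arfR_eq hL1 hL2]
  -- reduction modulo two
  apply (equivV R).injective
  obtain ⟨F, hF⟩ : ∃ F : R →+* Mod2 R, F = proj2 := ⟨_, rfl⟩
  have hm : ∀ {α β : Type _} (x : Matrix α β R), xᴴ.map F = (x.map F)ᴴ := by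
    intro α β x; rw [hF]; exact map_cT x
  have hlamF : (ψ + (ε : ℤ) • ψᴴ).map F = ψ.map F + (ψ.map F)ᴴ := by
    rw [Matrix.map_add _ (map_add _), hF, map_zsmul', map_cT, eps_smul]
  have h1 : L.map F * (ψ.map F + (ψ.map F)ᴴ) = 1 := by
    rw [← hlamF, ← Matrix.map_mul, hL1, Matrix.map_one _ (map_zero _) (map_one _)]
  have h2 : (ψ.map F + (ψ.map F)ᴴ) * L.map F = 1 := by
    rw [← hlamF, ← Matrix.map_mul, hL2, Matrix.map_one _ (map_zero _) (map_one _)]
  have h3 : P.map F * Q.map F = 1 := by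
    rw [← Matrix.map_mul, hPQ, Matrix.map_one _ (map_zero _) (map_one _)]
  have h4 : Q.map F * P.map F = 1 := by
    rw [← Matrix.map_mul, hQP, Matrix.map_one _ (map_zero _) (map_one _)]
  have h5 : (P.map F)ᴴ * (ψ.map F + (ψ.map F)ᴴ) * P.map F = Matrix.fromBlocks 0 1 1 0 := by
    rw [← hlamF, ← hm, ← Matrix.map_mul, ← Matrix.map_mul, ← hlam, hh, ← hH, Matrix.fromBlocks_map,
      Matrix.map_zero _ (map_zero F), Matrix.map_one _ (map_zero F) (map_one F)]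
    congr 1
    rw [hF, map_zsmul', eps_smul, Matrix.map_one _ (map_zero _) (map_one _)]
  have h6 := arf_two (ψ.map F) (L.map F) h1 h2 (P.map F) (Q.map F) h3 h4 h5
  have h7 : equivV R (cls (ψ * L * (ψ * L) * (ψ * L) + ψ * L).trace)
      = cls (ψ.map F * L.map F * (ψ.map F * L.map F) * (ψ.map F * L.map F)
        + ψ.map F * L.map F).trace := by
    rw [equivV_cls, ← hF]
    congr 1
    rw [← Matrix.map_mul, ← Matrix.map_mul, ← Matrix.map_mul, ← Matrix.map_add _ (map_add _)]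
    exact AddMonoidHom.map_trace F.toAddMonoidHom _
  rw [h7, h6, arfBasis, map_sum]
  refine Finset.sum_congr rfl (fun i _ => ?_)
  rw [equivV_cls, ← hF, map_mul F, ← hm, ← Matrix.map_mul, ← Matrix.map_mul, ← hP, cols_mul]
  rfl

end Pool.Agent.Lib.MP8a3537.D1R
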