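import Mathlib

/-!
# The group `V(R)` of a ring with involution

`V(R)` is the quotient of `R` by the additive subgroup generated by the elements `x y - y x`,
`x - x^*` and `x ^ 2 - x`. It is the target of the Arf invariant of quadratic forms over `R`.
-/

namespace Pool.Agent.Lib.MP8a3537.D1R

section

variable (R : Type*) [Ring R] [StarRing R]

/-- The additive subgroup of `R` generated by the elements `x y - y x`, `x - x^*` and
`x ^ 2 - x`. -/
def relV : AddSubgroup R :=
  AddSubgroup.closure {z | (∃ x y, z = x * y - y * x) ∨ (∃ x, z = x - star x) ∨ ∃ x, z = x * x - x}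

/-- The group `V(R)`. -/
abbrev V := R ⧸ relV R

end

variable {R : Type*} [Ring R] [StarRing R]

/-- The class of an element of `R` in `V(R)`. -/
def cls : R →+ V R := QuotientAddGroup.mk' (relV R)

lemma cls_eq {x y : R} (h : x - y ∈ relV R) : cls x = cls y := by
  have h1 : cls (x - y) = (0 : V R) := (QuotientAddGroup.eq_zero_iff _).mpr h
  rw [map_sub] at h1
  exact sub_eq_zero.mp h1

lemma cls_comm (x y : R) : cls (x * y) = cls (y * x) :=
  cls_eq (AddSubgroup.subset_closure (Or.inl ⟨x, y, rfl⟩))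

lemma cls_star (x : R) : cls (star x) = cls x :=
  (cls_eq (AddSubgroup.subset_closure (Or.inr (Or.inl ⟨x, rfl⟩)))).symm

lemma cls_sq (x : R) : cls (x * x) = cls x :=
  cls_eq (AddSubgroup.subset_closure (Or.inr (Or.inr ⟨x, rfl⟩)))

lemma two_V (v : V R) : v + v = 0 := by
  obtain ⟨x, rfl⟩ := QuotientAddGroup.mk'_surjective _ v
  change cls x + cls x = 0
  have h := cls_sq (-x)
  rw [neg_mul_neg, cls_sq, map_neg] at h
  nth_rw 1 [h]
  exact neg_add_cancel _

lemma eq_of_add {x y : V R} (h : x + y = 0) : x = y :=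
  add_right_cancel (h.trans (two_V y).symm)

lemma cls_surjective : Function.Surjective (cls : R → V R) := QuotientAddGroup.mk'_surjective _

/-- functoriality -/
def mapV {S : Type*} [Ring S] [StarRing S] (f : R →+* S) (hf : ∀ x, f (star x) = star (f x)) :
    V R →+ V S :=
  QuotientAddGroup.map (relV R) (relV S) f.toAddMonoidHom (by
    unfold relV
    rw [AddSubgroup.closure_le]
    rintro z (⟨x, y, rfl⟩ | ⟨x, rfl⟩ | ⟨x, rfl⟩)
    · exact AddSubgroup.subset_closure (Or.inl ⟨f x, f y, by simp⟩)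
    · exact AddSubgroup.subset_closure (Or.inr (Or.inl ⟨f x, by simp [hf]⟩))
    · exact AddSubgroup.subset_closure (Or.inr (Or.inr ⟨f x, by simp⟩)))

lemma mapV_cls {S : Type*} [Ring S] [StarRing S] (f : R →+* S)
    (hf : ∀ x, f (star x) = star (f x)) (x : R) : mapV f hf (cls x) = cls (f x) := rfl

/-! ### The ring `R / 2 R` -/

/-- Rings with `2 = 0`. -/
class Two (S : Type*) [Ring S] : Prop where
  two : ∀ x : S, x + x = 0

variable (R) in
/-- congruence modulo two -/
def con2 : RingCon R where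
  r x y := ∃ z, x = y + (z + z)
  iseqv := by
    refine ⟨fun x => ⟨0, by simp⟩, ?_, ?_⟩
    · rintro x y ⟨z, rfl⟩; exact ⟨-z, by abel⟩
    · rintro x y w ⟨z, rfl⟩ ⟨z', rfl⟩; exact ⟨z' + z, by abel⟩
  add' := by
    rintro a b c d ⟨z, rfl⟩ ⟨w, rfl⟩
    exact ⟨z + w, by abel⟩
  mul' := by
    rintro a b c d ⟨z, rfl⟩ ⟨w, rfl⟩
    exact ⟨b * w + z * d + (z * w + z * w), by noncomm_ring⟩

variable (R) in
/-- The ring `R / 2 R`. -/
abbrev Mod2 := (con2 R).Quotient

/-- the projection -/
def proj2 : R →+* Mod2 R := (con2 R).mk'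

lemma proj2_surjective : Function.Surjective (proj2 : R → Mod2 R) := (con2 R).mk'_surjective

lemma proj2_eq {x y : R} : proj2 x = proj2 y ↔ ∃ z, x = y + (z + z) := (con2 R).eq

instance : Two (Mod2 R) where
  two x := by
    obtain ⟨y, rfl⟩ := proj2_surjective x
    rw [← map_add, ← map_zero (proj2 (R := R)), proj2_eq]
    exact ⟨y, by simp⟩

/-- the involution of `R / 2 R` -/
def star2 : Mod2 R → Mod2 R := fun x => Quotient.liftOn' x (fun y => proj2 (star y)) (by
  intro x y h
  obtain ⟨z, hz⟩ : ∃ z, x = y + (z + z) := h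
  rw [proj2_eq]
  exact ⟨star z, by rw [hz, star_add, star_add]⟩)

lemma star2_proj2 (x : R) : star2 (proj2 x) = proj2 (star x) := rfl

instance : StarRing (Mod2 R) where
  star := star2
  star_involutive x := by
    obtain ⟨y, rfl⟩ := proj2_surjective x
    rw [star2_proj2, star2_proj2, star_star]
  star_mul x y := by
    obtain ⟨x, rfl⟩ := proj2_surjective x
    obtain ⟨y, rfl⟩ := proj2_surjective y
    rw [← map_mul, star2_proj2, star_mul, map_mul]; rfl
  star_add x y := by
    obtain ⟨x, rfl⟩ := proj2_surjective x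
    obtain ⟨y, rfl⟩ := proj2_surjective y
    rw [← map_add, star2_proj2, star_add, map_add]; rfl

lemma proj2_star (x : R) : proj2 (star x) = star (proj2 x) := rfl

/-- `V(R)` is `V(R / 2 R)`. -/
lemma relV_iff (x : R) : proj2 x ∈ relV (Mod2 R) ↔ x ∈ relV R := by
  have h2 : ∀ z : R, z + z ∈ relV R := by
    intro z
    have h := two_V (cls z)
    rw [← map_add] at h
    exact (QuotientAddGroup.eq_zero_iff _).mp h
  have hle : relV (Mod2 R) ≤ (relV R).map (proj2 (R := R)).toAddMonoidHom := by
    unfold relV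
    rw [AddSubgroup.closure_le]
    rintro z (⟨x, y, rfl⟩ | ⟨x, rfl⟩ | ⟨x, rfl⟩)
    · obtain ⟨x, rfl⟩ := proj2_surjective x
      obtain ⟨y, rfl⟩ := proj2_surjective y
      exact ⟨x * y - y * x, AddSubgroup.subset_closure (Or.inl ⟨x, y, rfl⟩), by simp⟩
    · obtain ⟨x, rfl⟩ := proj2_surjective x
      exact ⟨x - star x, AddSubgroup.subset_closure (Or.inr (Or.inl ⟨x, rfl⟩)), by
        simp [proj2_star]⟩
    · obtain ⟨x, rfl⟩ := proj2_surjective x
      exact ⟨x * x - x, AddSubgroup.subset_closure (Or.inr (Or.inr ⟨x, rfl⟩)), by simp⟩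
  constructor
  · intro h
    obtain ⟨y, hy, hyx⟩ := hle h
    obtain ⟨z, hz⟩ := proj2_eq.mp (show proj2 y = proj2 x from hyx)
    have : x = y - (z + z) := by rw [hz]; abel
    rw [this]
    exact (relV R).sub_mem hy (h2 z)
  · intro h
    have h1 : cls x = (0 : V R) := (QuotientAddGroup.eq_zero_iff _).mpr h
    have h3 := congrArg (mapV proj2 proj2_star) h1
    rw [mapV_cls, map_zero] at h3
    exact (QuotientAddGroup.eq_zero_iff _).mp h3

lemma mapV_injective : Function.Injective (mapV (proj2 (R := R)) proj2_star) := by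
  rw [injective_iff_map_eq_zero]
  intro v hv
  obtain ⟨x, rfl⟩ := cls_surjective v
  rw [mapV_cls] at hv
  have h1 := (QuotientAddGroup.eq_zero_iff _).mp hv
  exact (QuotientAddGroup.eq_zero_iff _).mpr ((relV_iff x).mp h1)

lemma mapV_surjective : Function.Surjective (mapV (proj2 (R := R)) proj2_star) := by
  intro v
  obtain ⟨y, rfl⟩ := cls_surjective v
  obtain ⟨x, rfl⟩ := proj2_surjective y
  exact ⟨cls x, rfl⟩

variable (R) in
/-- The isomorphism `V(R) → V(R / 2 R)`. -/
noncomputable def equivV : V R ≃+ V (Mod2 R) :=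
  AddEquiv.ofBijective (mapV proj2 proj2_star) ⟨mapV_injective, mapV_surjective⟩

lemma equivV_cls (x : R) : equivV R (cls x) = cls (proj2 x) := rfl

end Pool.Agent.Lib.MP8a3537.D1R
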